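import Pool.Agent.W327.MO.SY1

/-! # MO-CLb: the counting lemma -/

set_option autoImplicit false

open Finset

namespace Pool.Agent.W327.MO

open Pool.Agent.W164.MO

theorem e2_le {a b : ℝ} (h : a ≤ b) : (2 : ℝ) ^ a ≤ (2 : ℝ) ^ b :=
  Real.rpow_le_rpow_of_exponent_le (by norm_num) h

theorem e2_add (a b : ℝ) : (2 : ℝ) ^ (a + b) = (2 : ℝ) ^ a * (2 : ℝ) ^ b :=
  Real.rpow_add (by norm_num) a b

theorem e2_nat (n : ℕ) : (2 : ℝ) ^ (n : ℝ) = (2 : ℝ) ^ n := Real.rpow_natCast _ _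

theorem e2_pos (a : ℝ) : 0 < (2 : ℝ) ^ a := by positivity

theorem e2_neg (a : ℝ) : (2 : ℝ) ^ (-a) = ((2 : ℝ) ^ a)⁻¹ := Real.rpow_neg (by norm_num) a

/-- the bound for `L' / b` -/
theorem m_bound {δ ν ε k h L L' b : ℝ} (hδ : 0 < δ) (hδ1 : δ ≤ 1 / 200) (hν : 0 < ν) (hν1 : ν ≤ 1)
    (hεν : ε ≤ ν / 4) (hk : 0 ≤ k) (hL : (2 : ℝ) ^ ((1 / 2 - δ) * k - 1) ≤ L)
    (hL' : L' ≤ (2 : ℝ) ^ ((1 / 2 - δ) * h)) (hhk : 99 / 200 * k - 2 ≤ h)
    (hb1 : (2 : ℝ) ^ (ν * h) ≤ b) (hb2 : (2 : ℝ) ^ (h - k - 1) ≤ b) :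
    L' ≤ 8 * L * (2 : ℝ) ^ (-(ε * k)) * b := by
  have h8 : (8 : ℝ) = (2 : ℝ) ^ (3 : ℝ) := by norm_num
  have key : ∀ β : ℝ, (2 : ℝ) ^ β ≤ b → (1 / 2 - δ) * h ≤ 3 + ((1 / 2 - δ) * k - 1) + -(ε * k) + β →
      L' ≤ 8 * L * (2 : ℝ) ^ (-(ε * k)) * b := by
    intro β hβ hle
    calc L' ≤ (2 : ℝ) ^ ((1 / 2 - δ) * h) := hL'
      _ ≤ (2 : ℝ) ^ (3 + ((1 / 2 - δ) * k - 1) + -(ε * k) + β) := e2_le hle
      _ = 8 * (2 : ℝ) ^ ((1 / 2 - δ) * k - 1) * (2 : ℝ) ^ (-(ε * k)) * (2 : ℝ) ^ β := by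
          rw [e2_add, e2_add, e2_add, ← h8]
      _ ≤ 8 * L * (2 : ℝ) ^ (-(ε * k)) * b := by
          have h0 : 0 ≤ L := (e2_pos _).le.trans hL
          gcongr
  have hεk : ε * k ≤ ν / 4 * k := mul_le_mul_of_nonneg_right hεν hk
  rcases le_or_gt h k with hle | hgt
  · apply key _ hb1
    have h1 : 0 ≤ (1 / 2 - δ) * (k - h) := mul_nonneg (by linarith) (by linarith)
    have h2 : ν * (99 / 200 * k - 2) ≤ ν * h := mul_le_mul_of_nonneg_left hhk hν.le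
    have h3 : 0 ≤ ν * k := by positivity
    nlinarith
  · have h4 : 0 ≤ δ * (h - k) := mul_nonneg hδ.le (by linarith)
    by_cases ht : ν * k / 2 ≤ h - k
    · apply key _ hb2
      nlinarith
    · push Not at ht
      apply key _ hb1
      have h5 : ν * k ≤ ν * h := mul_le_mul_of_nonneg_left hgt.le hν.le
      nlinarith

/-- the estimate of the main error terms -/
theorem f_one {δ c L L' Q R : ℝ} {k h : ℕ} (hδ : 0 < δ) (hc : 0 < c) (hc2 : c ≤ 1 / 2)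
    (hδc : 100 * δ ≤ c) (hL : (2 : ℝ) ^ ((1 / 2 - δ) * (k : ℝ) - 1) ≤ L)
    (hL' : L' ≤ (2 : ℝ) ^ ((1 / 2 - δ) * (h : ℝ))) (hQL : L ≤ Q)
    (hQh : (2 : ℝ) ^ ((1 / 2 + c / 2) * (h : ℝ)) ≤ Q)
    (hhk : 99 / 200 * (k : ℝ) - 2 ≤ h) (hR : R = (2 : ℝ) ^ (-(22 / 100 * c * (k : ℝ)))) :
    2 ^ (k + 1) * L' / Q ^ 2 ≤ 16 * L * R := by
  have hL0 : 0 < L := (e2_pos _).trans_le hL
  have hQ0 : 0 < Q := (e2_pos _).trans_le hQh
  have hR0 : 0 < R := hR ▸ e2_pos _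
  have hkR : (0 : ℝ) ≤ k := Nat.cast_nonneg k
  have hhR : (0 : ℝ) ≤ h := Nat.cast_nonneg h
  have hck : 0 ≤ c * (k : ℝ) := by positivity
  have hch1 : c * (99 / 200 * (k : ℝ) - 2) ≤ c * h := mul_le_mul_of_nonneg_left hhk hc.le
  rw [div_le_iff₀ (by positivity)]
  have hQQ : L * (2 : ℝ) ^ ((1 / 2 + c / 2) * (h : ℝ)) ≤ Q ^ 2 := by
    rw [sq]
    gcongr
  have h16 : (16 : ℝ) = (2 : ℝ) ^ (4 : ℝ) := by norm_num
  calc 2 ^ (k + 1) * L' ≤ (2 : ℝ) ^ ((k : ℝ) + 1) * (2 : ℝ) ^ ((1 / 2 - δ) * (h : ℝ)) := by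
        rw [← Nat.cast_succ, e2_nat]
        gcongr
    _ = (2 : ℝ) ^ ((k : ℝ) + 1 + (1 / 2 - δ) * (h : ℝ)) := (e2_add _ _).symm
    _ ≤ (2 : ℝ) ^ (4 + ((1 / 2 - δ) * (k : ℝ) - 1) + -(22 / 100 * c * (k : ℝ)) +
          ((1 / 2 - δ) * (k : ℝ) - 1) + (1 / 2 + c / 2) * (h : ℝ)) := by
        apply e2_le
        have h1 : 0 ≤ δ * (h : ℝ) := by positivity
        have h2 : 0 ≤ (c - 100 * δ) * (k : ℝ) := mul_nonneg (by linarith) hkR
        nlinarith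
    _ = 16 * (2 : ℝ) ^ ((1 / 2 - δ) * (k : ℝ) - 1) * R * ((2 : ℝ) ^ ((1 / 2 - δ) * (k : ℝ) - 1) *
          (2 : ℝ) ^ ((1 / 2 + c / 2) * (h : ℝ))) := by
        rw [e2_add, e2_add, e2_add, e2_add, ← h16, hR]
        ring
    _ ≤ 16 * L * R * (L * (2 : ℝ) ^ ((1 / 2 + c / 2) * (h : ℝ))) := by gcongr
    _ ≤ 16 * L * R * Q ^ 2 := by gcongr

theorem f_two {c L Q R : ℝ} {k h : ℕ} (hc : 0 < c) (hc2 : c ≤ 1 / 2) (hL0 : 0 < L)
    (hQh : (2 : ℝ) ^ ((1 / 2 + c / 2) * (h : ℝ)) ≤ Q)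
    (hhk : 99 / 200 * (k : ℝ) - 2 ≤ h) (hR : R = (2 : ℝ) ^ (-(22 / 100 * c * (k : ℝ)))) :
    L * 2 ^ h / Q ^ 2 ≤ 4 * L * R := by
  have hQ0 : 0 < Q := (e2_pos _).trans_le hQh
  have hR0 : 0 < R := hR ▸ e2_pos _
  have hkR : (0 : ℝ) ≤ k := Nat.cast_nonneg k
  have hck : 0 ≤ c * (k : ℝ) := by positivity
  have hch1 : c * (99 / 200 * (k : ℝ) - 2) ≤ c * h := mul_le_mul_of_nonneg_left hhk hc.le
  rw [div_le_iff₀ (by positivity)]
  have hQQ : (2 : ℝ) ^ ((1 / 2 + c / 2) * (h : ℝ)) * (2 : ℝ) ^ ((1 / 2 + c / 2) * (h : ℝ)) ≤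
      Q ^ 2 := by
    rw [sq]
    gcongr
  have h4 : (4 : ℝ) = (2 : ℝ) ^ (2 : ℝ) := by norm_num
  calc L * 2 ^ h = L * (2 : ℝ) ^ (h : ℝ) := by rw [e2_nat]
    _ ≤ L * (2 : ℝ) ^ (2 + -(22 / 100 * c * (k : ℝ)) + (1 / 2 + c / 2) * (h : ℝ) +
          (1 / 2 + c / 2) * (h : ℝ)) := by
        apply mul_le_mul_of_nonneg_left _ hL0.le
        apply e2_le
        nlinarith
    _ = 4 * L * R * ((2 : ℝ) ^ ((1 / 2 + c / 2) * (h : ℝ)) *
          (2 : ℝ) ^ ((1 / 2 + c / 2) * (h : ℝ))) := by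
        rw [e2_add, e2_add, e2_add, ← h4, hR]
        ring
    _ ≤ 4 * L * R * Q ^ 2 := by gcongr

theorem f_three {δ c L L' Q R : ℝ} {k h : ℕ} (hδ : 0 < δ) (hc : 0 < c) (hc2 : c ≤ 1 / 2)
    (hL0 : 0 < L) (hL' : L' ≤ (2 : ℝ) ^ ((1 / 2 - δ) * (h : ℝ)))
    (hQh : (2 : ℝ) ^ ((1 / 2 + c / 2) * (h : ℝ)) ≤ Q)
    (hhk : 99 / 200 * (k : ℝ) - 2 ≤ h) (hR : R = (2 : ℝ) ^ (-(22 / 100 * c * (k : ℝ)))) :
    L * L' / Q ≤ 2 * L * R := by
  have hQ0 : 0 < Q := (e2_pos _).trans_le hQh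
  have hR0 : 0 < R := hR ▸ e2_pos _
  have hkR : (0 : ℝ) ≤ k := Nat.cast_nonneg k
  have hhR : (0 : ℝ) ≤ h := Nat.cast_nonneg h
  have hck : 0 ≤ c * (k : ℝ) := by positivity
  have hch1 : c * (99 / 200 * (k : ℝ) - 2) ≤ c * h := mul_le_mul_of_nonneg_left hhk hc.le
  rw [div_le_iff₀ hQ0]
  calc L * L' ≤ L * (2 : ℝ) ^ ((1 / 2 - δ) * (h : ℝ)) := by gcongr
    _ ≤ L * (2 : ℝ) ^ (1 + -(22 / 100 * c * (k : ℝ)) + (1 / 2 + c / 2) * (h : ℝ)) := by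
        apply mul_le_mul_of_nonneg_left _ hL0.le
        apply e2_le
        have h1 : 0 ≤ δ * (h : ℝ) := by positivity
        nlinarith
    _ = 2 * L * R * (2 : ℝ) ^ ((1 / 2 + c / 2) * (h : ℝ)) := by
        rw [e2_add, e2_add, Real.rpow_one, hR]
        ring
    _ ≤ 2 * L * R * Q := by gcongr

/-- the window -/
theorem W_bound {x L y L' : ℝ} {k h : ℕ} (hL : 0 ≤ L) (hL' : 0 ≤ L') (hy : (2 : ℝ) ^ h ≤ y)
    (hxL : x + L ≤ 2 ^ (k + 1)) :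
    (x + L) / y - x / (y + L') ≤ 2 ^ (k + 1) * L' / 4 ^ h + L / 2 ^ h := by
  have h2h : (0 : ℝ) < 2 ^ h := by positivity
  have hyR : 0 < y := h2h.trans_le hy
  have h1 : (x + L) / y - x / (y + L') = x * L' / (y * (y + L')) + L / y := by
    field_simp
    ring
  rw [h1]
  have h4h : (4 : ℝ) ^ h ≤ y * (y + L') := by
    calc (4 : ℝ) ^ h = 2 ^ h * 2 ^ h := by
          rw [← mul_pow]; norm_num
      _ ≤ y * (y + L') := by
          gcongr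
          linarith
  gcongr
  linarith

/-- the end of the argument -/
theorem final {L L' Q R W ρ I2 I4 : ℝ} {k h : ℕ} (hL : 0 < L) (hL' : 0 ≤ L') (hQ0 : 0 < Q)
    (f1 : 2 ^ (k + 1) * L' / Q ^ 2 ≤ 16 * L * R) (f2 : L * 2 ^ h / Q ^ 2 ≤ 4 * L * R)
    (f3 : L * L' / Q ≤ 2 * L * R) (hWle : W ≤ 2 ^ (k + 1) * L' / 4 ^ h + L / 2 ^ h)
    (hI2 : 0 ≤ I2) (hI4 : I4 = I2 ^ 2) (hIub : I2 ≤ 2 ^ (h + 1) / Q) (hρ0 : 0 ≤ ρ)
    (hρ1 : ρ ≤ L') (hρ2 : ρ ≤ L * 2 ^ (h + 1) / 2 ^ k) :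
    8 * W * (I4 + I2 * ρ) ≤ 800 * (L * R) := by
  have h2h : (0 : ℝ) < 2 ^ h := by positivity
  have h2k : (0 : ℝ) < 2 ^ k := by positivity
  have h4I : I4 ≤ (2 ^ (h + 1) / Q) ^ 2 := by
    rw [hI4]
    gcongr
  have hI40 : 0 ≤ I4 := by
    rw [hI4]
    positivity
  have hW0 : 0 ≤ 2 ^ (k + 1) * L' / 4 ^ h + L / 2 ^ h := by positivity
  have h4h : (4 : ℝ) ^ h = 2 ^ h * 2 ^ h := by rw [← mul_pow]; norm_num
  have e2 : 8 * W * I4 ≤ 640 * (L * R) := by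
    calc 8 * W * I4
        ≤ 8 * (2 ^ (k + 1) * L' / 4 ^ h + L / 2 ^ h) * (2 ^ (h + 1) / Q) ^ 2 := by gcongr
      _ = 32 * (2 ^ (k + 1) * L' / Q ^ 2) + 32 * (L * 2 ^ h / Q ^ 2) := by
          rw [h4h, pow_succ 2 h]
          field_simp
          ring
      _ ≤ 32 * (16 * L * R) + 32 * (4 * L * R) := by gcongr
      _ = _ := by ring
  have e3 : 8 * W * (I2 * ρ) ≤ 160 * (L * R) := by
    calc 8 * W * (I2 * ρ)
        ≤ 8 * (2 ^ (k + 1) * L' / 4 ^ h + L / 2 ^ h) * (2 ^ (h + 1) / Q * ρ) := by gcongr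
      _ = 8 * (2 ^ (k + 1) * L' / 4 ^ h) * (2 ^ (h + 1) / Q) * ρ +
          8 * (L / 2 ^ h) * (2 ^ (h + 1) / Q) * ρ := by ring
      _ ≤ 8 * (2 ^ (k + 1) * L' / 4 ^ h) * (2 ^ (h + 1) / Q) * (L * 2 ^ (h + 1) / 2 ^ k) +
          8 * (L / 2 ^ h) * (2 ^ (h + 1) / Q) * L' := by gcongr
      _ = 80 * (L * L' / Q) := by
          rw [h4h, pow_succ 2 h, pow_succ 2 k]
          field_simp
          ring
      _ ≤ 80 * (2 * L * R) := by gcongr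
      _ = _ := by ring
  calc 8 * W * (I4 + I2 * ρ) = 8 * W * I4 + 8 * W * (I2 * ρ) := by ring
    _ ≤ 640 * (L * R) + 160 * (L * R) := add_le_add e2 e3
    _ = _ := by ring

/-- the first error term -/
theorem e_one {δ ε k h L m P I : ℝ} (hL0 : 0 < L) (hδ1 : δ ≤ 1 / 200) (hεδ : ε ≤ 1 / 20)
    (hk : 0 ≤ k) (hI : I ≤ h) (hh2 : h ≤ 2 * k + 2)
    (hL : (2 : ℝ) ^ ((1 / 2 - δ) * k - 1) ≤ L) (hm : m = 8 * L * (2 : ℝ) ^ (-(ε * k)))
    (hP : P = (2 : ℝ) ^ (-(ε / 2 * k))) (h1 : 24 * k + 36 ≤ (2 : ℝ) ^ (47 / 100 * k))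
    (h2 : 96 * k + 144 ≤ (2 : ℝ) ^ (ε / 2 * k)) :
    (I + 1) * (1 + m) ≤ L * P / 6 + L * P / 6 := by
  have hP0 : 0 < P := hP ▸ e2_pos _
  have hm0 : 0 ≤ m := by
    rw [hm]
    positivity
  have h3 : 2 * k + 3 ≤ L * P / 6 := by
    have h4 : (2 : ℝ) ^ (47 / 100 * k) ≤ 2 * (L * P) := by
      calc (2 : ℝ) ^ (47 / 100 * k)
          ≤ (2 : ℝ) ^ (1 + ((1 / 2 - δ) * k - 1) + -(ε / 2 * k)) := by
            apply e2_le
            nlinarith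
        _ = 2 * (2 : ℝ) ^ ((1 / 2 - δ) * k - 1) * P := by
            rw [e2_add, e2_add, Real.rpow_one, hP]
        _ ≤ 2 * L * P := by gcongr
        _ = _ := by ring
    linarith
  have h5 : (2 * k + 3) * m ≤ L * P / 6 := by
    have h6 : (2 : ℝ) ^ (-(ε * k)) * (2 : ℝ) ^ (ε / 2 * k) = P := by
      rw [← e2_add, hP]
      congr 1
      ring
    have h7 : (2 * k + 3) * 48 ≤ (2 : ℝ) ^ (ε / 2 * k) := by linarith
    have h8 : (2 * k + 3) * m * 6 ≤ L * P := by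
      calc (2 * k + 3) * m * 6 = L * ((2 : ℝ) ^ (-(ε * k)) * ((2 * k + 3) * 48)) := by
            rw [hm]; ring
        _ ≤ L * ((2 : ℝ) ^ (-(ε * k)) * (2 : ℝ) ^ (ε / 2 * k)) := by gcongr
        _ = _ := by rw [h6]
    linarith
  calc (I + 1) * (1 + m) ≤ (2 * k + 3) * (1 + m) := by
        apply mul_le_mul_of_nonneg_right _ (by linarith)
        linarith
    _ = (2 * k + 3) + (2 * k + 3) * m := by ring
    _ ≤ _ := add_le_add h3 h5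

theorem r_bound {ε c k P : ℝ} (hεc : ε ≤ c / 10) (hk : 0 ≤ k)
    (hP : P = (2 : ℝ) ^ (-(ε / 2 * k))) (h1 : 0 * k + 3000 ≤ (2 : ℝ) ^ (17 / 100 * c * k)) :
    (2 : ℝ) ^ (-(22 / 100 * c * k)) * 3000 ≤ P := by
  have hE3 : (3000 : ℝ) ≤ (2 : ℝ) ^ (17 / 100 * c * k) := by linarith
  calc (2 : ℝ) ^ (-(22 / 100 * c * k)) * 3000
      ≤ (2 : ℝ) ^ (-(22 / 100 * c * k)) * (2 : ℝ) ^ (17 / 100 * c * k) := by gcongr
    _ = (2 : ℝ) ^ (-(22 / 100 * c * k) + 17 / 100 * c * k) := (e2_add _ _).symm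
    _ ≤ P := by
        rw [hP]
        apply e2_le
        have : 0 ≤ (c / 10 - ε) * k := mul_nonneg (by linarith) hk
        nlinarith

theorem clb : S_CLb := by
  classical
  intro hCLa δ c ν κ hδ hc hc2 hδc hν hν1 hκ
  set ε : ℝ := min κ (min (ν / 4) (c / 10)) with hε
  have hε0 : 0 < ε := lt_min hκ (lt_min (by positivity) (by positivity))
  have hεκ : ε ≤ κ := min_le_left _ _
  have hεν : ε ≤ ν / 4 := (min_le_right _ _).trans (min_le_left _ _)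
  have hεc : ε ≤ c / 10 := (min_le_right _ _).trans (min_le_right _ _)
  obtain ⟨I1, hI1⟩ := lin_le_exp (47 / 100) 24 36 (by norm_num)
  obtain ⟨I2, hI2⟩ := lin_le_exp (ε / 2) 96 144 (by positivity)
  obtain ⟨I3, hI3⟩ := lin_le_exp (17 / 100 * c) 0 3000 (by positivity)
  refine ⟨I1 + I2 + I3 + 10, ?_⟩
  intro k x L h y L' hKk hx hxL hy hyL' hL hL' Q hQL hQh
  have hδ1 : δ ≤ 1 / 200 := by linarith
  have hεδ : ε ≤ 1 / 20 := by linarith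
  set T := (Ico x (x + L)).filter (fun n => ∃ N ∈ Ico y (y + L'),
    Rough ((2 : ℝ) ^ (ν * (h : ℝ))) N ∧ (∃ g : ℕ, g ∣ n ∧ g ∣ N ∧ Q ≤ (g : ℝ)) ∧
      ¬ (N ∣ n ∧ (n : ℝ) < (2 : ℝ) ^ (κ * (k : ℝ)) * N)) with hT
  have hkR : (0 : ℝ) ≤ k := Nat.cast_nonneg k
  have hhR : (0 : ℝ) ≤ h := Nat.cast_nonneg h
  have hk10 : (10 : ℝ) ≤ k := by exact_mod_cast (by omega : 10 ≤ k)
  have hL0 : (0 : ℝ) < L := (e2_pos _).trans_le hL
  have hgoal0 : 0 ≤ (L : ℝ) * (2 : ℝ) ^ (-(ε / 2 * (k : ℝ))) := by positivity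
  by_cases hne : T.Nonempty
  swap
  · rw [not_nonempty_iff_eq_empty] at hne
    rw [hne, card_empty]
    push_cast
    exact hgoal0
  have hch : ∀ n : ℕ, ∃ N : ℕ, n ∈ T → N ∈ Ico y (y + L') ∧
      Rough ((2 : ℝ) ^ (ν * (h : ℝ))) N ∧ (∃ g : ℕ, g ∣ n ∧ g ∣ N ∧ Q ≤ (g : ℝ)) ∧
      ¬ (N ∣ n ∧ (n : ℝ) < (2 : ℝ) ^ (κ * (k : ℝ)) * N) := by
    intro n
    by_cases hn : n ∈ T
    · obtain ⟨N, hN⟩ := (mem_filter.1 hn).2
      exact ⟨N, fun _ => hN⟩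
    · exact ⟨0, fun h => absurd h hn⟩
  choose N hN using hch
  have hx1 : 1 ≤ x := le_trans Nat.one_le_two_pow hx
  have hy1 : 1 ≤ y := le_trans Nat.one_le_two_pow hy
  have hQ1 : 1 ≤ Q := by
    refine le_trans ?_ hQh
    rw [← Real.rpow_zero 2]
    exact e2_le (by positivity)
  have hQ0 : 0 < Q := by linarith
  -- basic facts on the elements of `T`
  have hbas : ∀ n ∈ T, 0 < n ∧ 0 < N n ∧ n < 2 ^ (k + 1) ∧ N n < 2 ^ (h + 1) ∧ 2 ^ k ≤ n ∧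
      2 ^ h ≤ N n ∧ Q ≤ (Nat.gcd n (N n) : ℝ) := by
    intro n hn
    obtain ⟨h1, h2, ⟨g, hg1, hg2, hg3⟩, h4⟩ := hN n hn
    have h5 := mem_Ico.1 (mem_filter.1 hn).1
    have h6 := mem_Ico.1 h1
    have hn0 : 0 < n := by omega
    have hN0 : 0 < N n := by omega
    refine ⟨hn0, hN0, by omega, by omega, by omega, by omega, ?_⟩
    refine hg3.trans ?_
    have h7 : g ≤ Nat.gcd n (N n) :=
      Nat.le_of_dvd (Nat.gcd_pos_of_pos_left _ hn0) (Nat.dvd_gcd hg1 hg2)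
    exact_mod_cast h7
  obtain ⟨n₀, hn₀⟩ := hne
  obtain ⟨b1, b2, b3, b4, b5, b6, b7⟩ := hbas n₀ hn₀
  have hQlt1 : Q < (2 : ℝ) ^ ((h : ℝ) + 1) := by
    refine b7.trans_lt ?_
    have h1 : Nat.gcd n₀ (N n₀) < 2 ^ (h + 1) := (Nat.gcd_le_right _ b2).trans_lt b4
    have h2 : ((Nat.gcd n₀ (N n₀) : ℕ) : ℝ) < ((2 ^ (h + 1) : ℕ) : ℝ) := by exact_mod_cast h1
    refine h2.trans_eq ?_
    rw [← Nat.cast_succ, e2_nat]
    push_cast
    rfl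
  have hQlt2 : Q < (2 : ℝ) ^ ((k : ℝ) + 1) := by
    refine b7.trans_lt ?_
    have h1 : Nat.gcd n₀ (N n₀) < 2 ^ (k + 1) := (Nat.gcd_le_left _ b1).trans_lt b3
    have h2 : ((Nat.gcd n₀ (N n₀) : ℕ) : ℝ) < ((2 ^ (k + 1) : ℕ) : ℝ) := by exact_mod_cast h1
    refine h2.trans_eq ?_
    rw [← Nat.cast_succ, e2_nat]
    push_cast
    rfl
  have hhk : 99 / 200 * (k : ℝ) - 2 ≤ h := by
    have h1 := (Real.rpow_lt_rpow_left_iff (by norm_num : (1 : ℝ) < 2)).1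
      ((hL.trans hQL).trans_lt hQlt1)
    nlinarith
  have hh2 : (h : ℝ) ≤ 2 * k + 2 := by
    have h1 := (Real.rpow_lt_rpow_left_iff (by norm_num : (1 : ℝ) < 2)).1 (hQh.trans_lt hQlt2)
    have h2 : 0 ≤ c * h := by positivity
    nlinarith
  -- choice of `I`
  have hexI : ∃ I : ℕ, (2 : ℝ) ^ h ≤ Q * 2 ^ I := ⟨h, by
    have : (0 : ℝ) < 2 ^ h := by positivity
    nlinarith⟩
  set I := Nat.find hexI with hIdef
  have hI : (2 : ℝ) ^ h ≤ Q * 2 ^ I := Nat.find_spec hexI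
  have hIh : I ≤ h := Nat.find_min' hexI (by
    have : (0 : ℝ) < 2 ^ h := by positivity
    nlinarith)
  have hIub : (2 : ℝ) ^ I ≤ 2 ^ (h + 1) / Q := by
    rw [le_div_iff₀ hQ0]
    rcases Nat.eq_zero_or_pos I with h0 | h0
    · rw [h0, pow_zero, one_mul]
      have := hQlt1.le
      rw [← Nat.cast_succ, e2_nat] at this
      exact this
    · have h1 := Nat.find_min hexI (show I - 1 < I by omega)
      push Not at h1
      have h2 : (2 : ℝ) ^ I = 2 * 2 ^ (I - 1) := by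
        rw [← pow_succ']
        congr 1
        omega
      rw [h2, pow_succ]
      linarith
  set m : ℝ := 8 * L * (2 : ℝ) ^ (-(ε * k)) with hm
  have hm0 : 0 ≤ m := by positivity
  have hmb : ∀ n ∈ T, min ((L : ℝ) / (n / Nat.gcd n (N n) : ℕ))
      ((L' : ℝ) / (N n / Nat.gcd n (N n) : ℕ)) ≤ m := by
    intro n hn
    obtain ⟨c1, c2, c3, c4, c5, c6, c7⟩ := hbas n hn
    obtain ⟨h1, hrough, -, h4⟩ := hN n hn
    set g := Nat.gcd n (N n) with hg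
    have hg0 : 0 < g := Nat.gcd_pos_of_pos_left _ c1
    have hga : n / g * g = n := Nat.div_mul_cancel (Nat.gcd_dvd_left _ _)
    have hgb : N n / g * g = N n := Nat.div_mul_cancel (Nat.gcd_dvd_right _ _)
    set a := n / g with ha
    set b := N n / g with hb
    have ha0 : 0 < a := Nat.pos_of_ne_zero fun h0 => by rw [h0, zero_mul] at hga; omega
    have hb0 : 0 < b := Nat.pos_of_ne_zero fun h0 => by rw [h0, zero_mul] at hgb; omega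
    by_cases hb1 : b = 1
    · -- `N` divides `n`
      rw [hb1, one_mul] at hgb
      have hdvd : N n ∣ n := by
        rw [← hgb]
        exact Nat.gcd_dvd_left _ _
      have h5 : (2 : ℝ) ^ (κ * (k : ℝ)) * N n ≤ n := by
        by_contra hcon
        push Not at hcon
        exact h4 ⟨hdvd, hcon⟩
      have h6 : (2 : ℝ) ^ (κ * (k : ℝ)) ≤ a := by
        have h7 : (a : ℝ) * N n = n := by
          rw [← hgb]
          exact_mod_cast hga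
        rw [← h7] at h5
        exact le_of_mul_le_mul_right h5 (by exact_mod_cast c2)
      refine (min_le_left _ _).trans ?_
      have haR : (0 : ℝ) < a := by exact_mod_cast ha0
      rw [div_le_iff₀ haR, hm]
      have h8 : (2 : ℝ) ^ (-(ε * k)) * (2 : ℝ) ^ (κ * (k : ℝ)) ≥ 1 := by
        rw [← e2_add, ← Real.rpow_zero 2]
        apply e2_le
        nlinarith
      calc (L : ℝ) = L * 1 := (mul_one _).symm
        _ ≤ L * ((2 : ℝ) ^ (-(ε * k)) * (2 : ℝ) ^ (κ * (k : ℝ))) := by gcongr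
        _ ≤ 8 * L * ((2 : ℝ) ^ (-(ε * k)) * (2 : ℝ) ^ (κ * (k : ℝ))) := by
            gcongr
            linarith
        _ ≤ 8 * L * ((2 : ℝ) ^ (-(ε * k)) * a) := by gcongr
        _ = _ := by ring
    · obtain ⟨p, hp, hpb⟩ := Nat.exists_prime_and_dvd hb1
      have hpN : p ∣ N n := hpb.trans (by rw [← hgb]; exact dvd_mul_right _ _)
      have h5 : (2 : ℝ) ^ (ν * (h : ℝ)) ≤ b := by
        refine (hrough p hp hpN).trans ?_
        exact_mod_cast Nat.le_of_dvd hb0 hpb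
      have h6 : (2 : ℝ) ^ ((h : ℝ) - k - 1) ≤ b := by
        have h7 : b * n = a * N n := by
          calc b * n = b * (a * g) := by rw [hga]
            _ = a * (b * g) := by ring
            _ = a * N n := by rw [hgb]
        have h8 : 2 ^ h ≤ b * 2 ^ (k + 1) := by
          calc 2 ^ h ≤ N n := c6
            _ ≤ a * N n := Nat.le_mul_of_pos_left _ ha0
            _ = b * n := h7.symm
            _ ≤ b * 2 ^ (k + 1) := Nat.mul_le_mul_left _ c3.le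
        have h9 : (2 : ℝ) ^ (h : ℝ) ≤ b * (2 : ℝ) ^ ((k : ℝ) + 1) := by
          rw [← Nat.cast_succ, e2_nat, e2_nat]
          exact_mod_cast h8
        have h10 : (2 : ℝ) ^ ((h : ℝ) - k - 1) * (2 : ℝ) ^ ((k : ℝ) + 1) = (2 : ℝ) ^ (h : ℝ) := by
          rw [← e2_add]
          congr 1
          ring
        rw [← h10] at h9
        exact le_of_mul_le_mul_right h9 (e2_pos _)
      refine (min_le_right _ _).trans ?_
      have hbR : (0 : ℝ) < b := by exact_mod_cast hb0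
      rw [div_le_iff₀ hbR]
      exact m_bound hδ hδ1 hν hν1 hεν hkR hL hL' hhk h5 h6
  have hyQ : ((y + L' : ℕ) : ℝ) ≤ Q * 2 ^ (I + 1) := by
    calc ((y + L' : ℕ) : ℝ) ≤ ((2 ^ (h + 1) : ℕ) : ℝ) := by exact_mod_cast hyL'
      _ = 2 ^ h * 2 := by push_cast; rw [pow_succ]
      _ ≤ (Q * 2 ^ I) * 2 := by gcongr
      _ = _ := by rw [pow_succ]; ring
  have hmain := hCLa x L y L' I Q m T N hx1 hy1 hQ1 hm0 (filter_subset _ _)
    (fun n hn => (hN n hn).1) (fun n hn => (hbas n hn).2.2.2.2.2.2) hmb hyQ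
  refine hmain.trans ?_
  -- the size of the window
  have hyR : (0 : ℝ) < y := by exact_mod_cast hy1
  have hxR : (0 : ℝ) < x := by exact_mod_cast hx1
  have hL'0 : (0 : ℝ) ≤ L' := Nat.cast_nonneg _
  have hyR2 : (2 : ℝ) ^ h ≤ y := by exact_mod_cast hy
  have hxR2 : (2 : ℝ) ^ k ≤ x := by exact_mod_cast hx
  have hyL'R : (y : ℝ) + L' ≤ 2 ^ (h + 1) := by exact_mod_cast hyL'
  have hxLR : (x : ℝ) + L ≤ 2 ^ (k + 1) := by exact_mod_cast hxL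
  have h2h : (0 : ℝ) < 2 ^ h := by positivity
  have h2k : (0 : ℝ) < 2 ^ k := by positivity
  set W : ℝ := ((x + L : ℕ) : ℝ) / y - (x : ℝ) / (y + L' : ℕ) with hW
  have hWle : W ≤ 2 ^ (k + 1) * L' / 4 ^ h + L / 2 ^ h := by
    have h1 := W_bound (k := k) (h := h) hL0.le hL'0 hyR2 hxLR
    rw [hW]
    push_cast
    exact h1
  set ρ : ℝ := min (L' : ℝ) (L * (y + L' : ℕ) / x) with hρ
  have hρ0 : 0 ≤ ρ := le_min hL'0 (by positivity)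
  have hρ1 : ρ ≤ L' := min_le_left _ _
  have hρ2 : ρ ≤ L * 2 ^ (h + 1) / 2 ^ k := by
    refine (min_le_right _ _).trans ?_
    push_cast
    gcongr
  -- abbreviations
  set P : ℝ := (2 : ℝ) ^ (-(ε / 2 * (k : ℝ))) with hP
  have hP0 : 0 < P := e2_pos _
  have hIR : (I : ℝ) ≤ h := by exact_mod_cast hIh
  have e1 := e_one (I := I) hL0 hδ1 hεδ hkR hIR hh2 hL hm hP (hI1 k (by omega))
    (hI2 k (by omega))
  -- the three error terms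
  have hR := r_bound hεc hkR hP (hI3 k (by omega))
  set R : ℝ := (2 : ℝ) ^ (-(22 / 100 * c * (k : ℝ))) with hRdef
  have hR0 : 0 < R := e2_pos _
  have f1 := f_one hδ hc hc2 hδc hL hL' hQL hQh hhk hRdef
  have f2 := f_two hc hc2 hL0 hQh hhk hRdef
  have f3 := f_three hδ hc hc2 hL0 hL' hQh hhk hRdef
  have h4I : (4 : ℝ) ^ I = (2 ^ I) ^ 2 := by rw [← pow_mul, mul_comm, pow_mul]; norm_num
  have e23 := final hL0 hL'0 hQ0 f1 f2 f3 hWle (by positivity) h4I hIub hρ0 hρ1 hρ2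
  have e4 : 800 * (L * R) ≤ L * P / 3 := by
    have : L * (R * 3000) ≤ L * P := by gcongr
    linarith
  have hLP : 0 ≤ L * P := by positivity
  linarith

end Pool.Agent.W327.MO
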