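import Pool.Agent.W327.MO.BB3
import Pool.Agent.W327.MO.CLb

/-! # MO-BB: few bad blocks on RH -/

set_option autoImplicit false

open MeasureTheory Filter Topology Set

namespace Pool.Agent.W327.MO

open Pool.Agent.W164.MO

/-- disjoint intervals and an integral -/
lemma sum_intervals {ι : Type} (S : Finset ι) (a b : ι → ℝ) (f : ℝ → ℝ) (hf : Integrable f)
    (hf0 : ∀ x, 0 ≤ f x) (c d : ℝ) (hc : 0 ≤ c) (hd0 : 0 ≤ d) (hd : ∀ i ∈ S, d ≤ b i - a i)
    (hdisj : Set.Pairwise (S : Set ι) (Function.onFun Disjoint (fun i => Ioo (a i) (b i))))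
    (hb : ∀ i ∈ S, ∀ x ∈ Ioo (a i) (b i), c ≤ f x) : S.card * (c * d) ≤ ∫ x, f x := by
  calc (S.card : ℝ) * (c * d) = ∑ i ∈ S, c * d := by rw [Finset.sum_const, nsmul_eq_mul]
    _ ≤ ∑ i ∈ S, ∫ x in Ioo (a i) (b i), f x := by
        refine Finset.sum_le_sum fun i hi => ?_
        have h1 : ∫ x in Ioo (a i) (b i), c ≤ ∫ x in Ioo (a i) (b i), f x :=
          setIntegral_mono_on (integrableOn_const (by simp)) hf.integrableOn measurableSet_Ioo
            (hb i hi)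
        rw [setIntegral_const, smul_eq_mul, Real.volume_real_Ioo_of_le
          (by linarith [hd i hi])] at h1
        refine le_trans ?_ h1
        rw [mul_comm]
        exact mul_le_mul_of_nonneg_right (hd i hi) hc
    _ = ∫ x in ⋃ i ∈ S, Ioo (a i) (b i), f x :=
        (integral_biUnion_finset S (fun i _ => measurableSet_Ioo) hdisj
          (fun i _ => hf.integrableOn)).symm
    _ ≤ ∫ x, f x := setIntegral_le_integral hf (Eventually.of_forall hf0)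

/-- the length of the intervals -/
lemma len_bound {k l j : ℕ} (hlk : l ≤ k) (hj : 1 ≤ j) (hj2 : j + 1 ≤ 2 ^ (k - l + 1)) :
    16 / 100 * ((2 : ℝ) ^ l / 2 ^ (k + 1)) ≤
      (Real.log ((j + 1) * 2 ^ l : ℕ) - 2 * ((2 : ℝ) ^ l / 2 ^ (k + 1) / 50)) -
      (Real.log (j * 2 ^ l : ℕ) + 4 / 5 * ((2 : ℝ) ^ l / 2 ^ (k + 1))) := by
  set τ : ℝ := (2 : ℝ) ^ l / 2 ^ (k + 1) with hτ
  have hj0 : (0 : ℝ) < j := by exact_mod_cast hj
  have h2l : (0 : ℝ) < 2 ^ l := by positivity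
  have h1 : Real.log ((j + 1) * 2 ^ l : ℕ) - Real.log (j * 2 ^ l : ℕ) = Real.log ((j + 1) / j) := by
    push_cast
    rw [Real.log_mul (by positivity) h2l.ne', Real.log_mul hj0.ne' h2l.ne',
      Real.log_div (by positivity) hj0.ne']
    ring
  have h2 : 1 - ((j + 1) / (j : ℝ))⁻¹ ≤ Real.log ((j + 1) / j) :=
    Real.one_sub_inv_le_log_of_pos (by positivity)
  have h3 : 1 - ((j + 1) / (j : ℝ))⁻¹ = 1 / (j + 1) := by
    rw [inv_div]
    field_simp
    ring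
  have h4 : τ ≤ 1 / (j + 1) := by
    have h5 : ((j : ℝ) + 1) ≤ 2 ^ (k - l + 1) := by exact_mod_cast hj2
    have h6 : (2 : ℝ) ^ (k + 1) = 2 ^ l * 2 ^ (k - l + 1) := by
      rw [← pow_add]; congr 1; omega
    rw [hτ, h6, div_le_div_iff₀ (by positivity) (by positivity), one_mul]
    gcongr
  linarith

theorem bb : S_BB := by
  intro hRH δ hδ
  set δ' : ℝ := min δ 1 with hδ'
  have hδ'0 : 0 < δ' := lt_min hδ one_pos
  have hδ'1 : δ' ≤ 1 := min_le_right _ _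
  have hδ'2 : δ' ≤ δ := min_le_left _ _
  obtain ⟨C, hC0, hC⟩ := mean_square hRH (σ := 1 / 2 + δ' / 8) (ε := δ' / 8) (by linarith)
    (by linarith) (by positivity) (by linarith)
  set σ : ℝ := 1 / 2 + δ' / 8 with hσ
  set ε : ℝ := δ' / 8 with hε
  have hε0 : 0 < ε := by positivity
  obtain ⟨I1, hI1⟩ := lin_le_exp (δ' / 4) 8 8 (by positivity)
  obtain ⟨I2, hI2⟩ := lin_le_exp (δ' / 2) 0 (2500 * C) (by positivity)
  refine ⟨I1 + I2 + 100, fun k l hk hlk => ?_⟩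
  have hkR : (0 : ℝ) ≤ k := Nat.cast_nonneg k
  have hk100 : (100 : ℝ) ≤ k := by exact_mod_cast (by omega : 100 ≤ k)
  rcases le_or_gt (l : ℝ) (δ' * k) with hcase | hcase
  · -- the trivial case
    have h1 : ((idx k l).filter (fun j => Bad k l j)).card ≤ 2 ^ (k - l) := by
      refine (Finset.card_filter_le _ _).trans ?_
      unfold idx
      rw [Nat.card_Ico, pow_succ]
      omega
    have h2 : (((idx k l).filter (fun j => Bad k l j)).card : ℝ) ≤ (2 : ℝ) ^ (k - l) := by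
      exact_mod_cast h1
    refine h2.trans ?_
    rw [← e2_nat, Nat.cast_sub hlk]
    apply e2_le
    have : δ' * k ≤ δ * k := by gcongr
    linarith
  -- the main case
  set S := (idx k l).filter (fun j => Bad k l j) with hS
  set τ : ℝ := (2 : ℝ) ^ l / 2 ^ (k + 1) with hτ
  have hτ0 : 0 < τ := by positivity
  have hτ1 : τ ≤ 1 / 2 := by
    rw [hτ, pow_succ, div_le_iff₀ (by positivity)]
    have : (2 : ℝ) ^ l ≤ 2 ^ k := pow_le_pow_right₀ (by norm_num) hlk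
    linarith
  -- prime powers
  have hpp : (k + 1) * (k + 1) * ((2 : ℝ) ^ l / Real.sqrt (2 ^ k) + 1) + 1 ≤ 1 / 20 * 2 ^ l := by
    have h1 := hI1 k (by omega)
    have h2 : (8 * (k : ℝ) + 8) ^ 2 ≤ (2 : ℝ) ^ (δ' / 2 * (k : ℝ)) := by
      have h3 : (2 : ℝ) ^ (δ' / 2 * (k : ℝ)) = ((2 : ℝ) ^ (δ' / 4 * (k : ℝ))) ^ 2 := by
        rw [sq, ← e2_add]
        congr 1
        ring
      rw [h3]
      gcongr
    have h3 : (2 : ℝ) ^ (δ' / 2 * (k : ℝ)) ≤ 2 ^ l := by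
      rw [← e2_nat]
      apply e2_le
      have : 0 ≤ δ' * k := by positivity
      linarith
    have h4 : (2 : ℝ) ^ (δ' / 2 * (k : ℝ)) ≤ Real.sqrt (2 ^ k) := by
      apply Real.le_sqrt_of_sq_le
      rw [sq, ← e2_add, ← e2_nat]
      apply e2_le
      have : δ' * k ≤ 1 * k := by gcongr
      linarith
    set P : ℝ := (2 : ℝ) ^ l with hP
    have hP0 : 0 < P := by positivity
    set D : ℝ := Real.sqrt (2 ^ k) with hD
    have hD0 : 0 < D := Real.sqrt_pos.2 (by positivity)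
    have h5 : 64 * ((k + 1) * (k + 1)) ≤ D := by nlinarith
    have h6 : 64 * ((k + 1) * (k + 1) : ℝ) ≤ P := by nlinarith
    have h7 : (k + 1) * (k + 1) * (P / D) ≤ P / 64 := by
      rw [← mul_div_assoc, div_le_div_iff₀ hD0 (by norm_num)]
      nlinarith
    have h8 : (1 : ℝ) ≤ (k + 1) * (k + 1) := by nlinarith
    have h9 : (k + 1) * (k + 1) * (P / D + 1) = (k + 1) * (k + 1) * (P / D) + (k + 1) * (k + 1) := by
      ring
    rw [h9]
    linarith
  obtain ⟨hint, hle⟩ := hC (τ / 50) (4 / 5 * τ) (by positivity) (by linarith) (by positivity)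
  set f : ℝ → ℝ := fun x => ‖EE (τ / 50) (4 / 5 * τ) σ x‖ ^ 2 * Real.exp (-(2 * σ * x)) with hf
  have hj12 : ∀ j ∈ S, 1 ≤ j ∧ j + 1 ≤ 2 ^ (k - l + 1) := by
    intro j hj
    have h1 := (Finset.mem_filter.1 hj).1
    unfold idx at h1
    rw [Finset.mem_Ico] at h1
    have h2 : 1 ≤ 2 ^ (k - l) := Nat.one_le_two_pow
    omega
  set c : ℝ := (1 / 10 * 2 ^ l) ^ 2 * (2 : ℝ) ^ (-(2 * σ * (k + 1))) with hc
  have hc0 : 0 ≤ c := by positivity
  have hkey := sum_intervals S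
    (fun j => Real.log (j * 2 ^ l : ℕ) + 4 / 5 * ((2 : ℝ) ^ l / 2 ^ (k + 1)))
    (fun j => Real.log ((j + 1) * 2 ^ l : ℕ) - 2 * ((2 : ℝ) ^ l / 2 ^ (k + 1) / 50)) f hint
    (fun x => by positivity) c (16 / 100 * τ) hc0 (by positivity)
    (fun j hj => len_bound hlk (hj12 j hj).1 (hj12 j hj).2) ?_ ?_
  · -- conclusion
    have h1 := hkey.trans hle
    have hτ2 : τ = (2 : ℝ) ^ ((l : ℝ) - (k + 1)) := by
      rw [sub_eq_add_neg, e2_add, e2_neg, e2_nat, ← Nat.cast_succ, e2_nat, hτ, div_eq_mul_inv]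
    have h2 : (4 / 5 * τ) ^ (1 - 2 * ε) ≤ τ ^ (1 - 2 * ε) := by
      apply Real.rpow_le_rpow (by positivity) (by linarith)
      rw [hε]
      linarith
    have h3 : τ ^ (1 - 2 * ε) = (2 : ℝ) ^ (((l : ℝ) - (k + 1)) * (1 - 2 * ε)) := by
      rw [hτ2, ← Real.rpow_mul (by norm_num)]
    have h4 : c * (16 / 100 * τ) = 1 / 625 *
        (2 : ℝ) ^ (2 * (l : ℝ) + -(2 * σ * (k + 1)) + ((l : ℝ) - (k + 1))) := by
      rw [e2_add, e2_add, ← hτ2, hc]
      have : (2 : ℝ) ^ (2 * (l : ℝ)) = (2 ^ l) ^ 2 := by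
        rw [two_mul, e2_add, e2_nat, sq]
      rw [this]
      ring
    have h5 : (S.card : ℝ) ≤ 625 * C * (2 : ℝ) ^ ((1 + δ' / 2) * ((k : ℝ) + 1) - 2 * l) := by
      have hX0 := e2_pos (2 * (l : ℝ) + -(2 * σ * (k + 1)) + ((l : ℝ) - (k + 1)))
      refine le_of_mul_le_mul_right ?_ hX0
      have h6 : (S.card : ℝ) *
          (2 : ℝ) ^ (2 * (l : ℝ) + -(2 * σ * (k + 1)) + ((l : ℝ) - (k + 1))) ≤
          625 * (C * (2 : ℝ) ^ (((l : ℝ) - (k + 1)) * (1 - 2 * ε))) := by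
        rw [h4] at h1
        have h7 : C * (4 / 5 * τ) ^ (1 - 2 * ε) ≤
            C * (2 : ℝ) ^ (((l : ℝ) - (k + 1)) * (1 - 2 * ε)) := by
          rw [← h3]
          gcongr
        linarith
      refine h6.trans ?_
      rw [mul_assoc, mul_assoc, ← e2_add]
      have h8 : (2 : ℝ) ^ (((l : ℝ) - (k + 1)) * (1 - 2 * ε)) ≤
          (2 : ℝ) ^ ((1 + δ' / 2) * ((k : ℝ) + 1) - 2 * l +
            (2 * (l : ℝ) + -(2 * σ * (k + 1)) + ((l : ℝ) - (k + 1)))) := by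
        apply e2_le
        rw [hσ, hε]
        have : 0 ≤ δ' * (l : ℝ) := by positivity
        nlinarith
      gcongr
    refine h5.trans ?_
    have h6 := hI2 k (by omega)
    have h7 : (2 : ℝ) ^ (1 + δ' / 2) ≤ 4 := by
      calc (2 : ℝ) ^ (1 + δ' / 2) ≤ (2 : ℝ) ^ (2 : ℝ) := e2_le (by linarith)
        _ = 4 := by norm_num
    calc 625 * C * (2 : ℝ) ^ ((1 + δ' / 2) * ((k : ℝ) + 1) - 2 * l)
        = 625 * C * (2 : ℝ) ^ (1 + δ' / 2) * (2 : ℝ) ^ ((1 + δ' / 2) * (k : ℝ) - 2 * l) := by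
          rw [mul_assoc (625 * C), ← e2_add]
          congr 2
          ring
      _ ≤ 625 * C * 4 * (2 : ℝ) ^ ((1 + δ' / 2) * (k : ℝ) - 2 * l) := by gcongr
      _ = (2500 * C) * (2 : ℝ) ^ ((1 + δ' / 2) * (k : ℝ) - 2 * l) := by ring
      _ ≤ (2 : ℝ) ^ (δ' / 2 * (k : ℝ)) * (2 : ℝ) ^ ((1 + δ' / 2) * (k : ℝ) - 2 * l) := by
          gcongr
          linarith
      _ = (2 : ℝ) ^ (δ' / 2 * (k : ℝ) + ((1 + δ' / 2) * (k : ℝ) - 2 * l)) := (e2_add _ _).symm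
      _ ≤ (2 : ℝ) ^ ((1 + δ) * k - 2 * l) := by
          apply e2_le
          have : δ' * k ≤ δ * k := by gcongr
          linarith
  · -- disjointness
    intro i hi j hj hij
    have hmono : ∀ i j : ℕ, 1 ≤ i → i < j → Disjoint
        (Ioo (Real.log (i * 2 ^ l : ℕ) + 4 / 5 * ((2 : ℝ) ^ l / 2 ^ (k + 1)))
          (Real.log ((i + 1) * 2 ^ l : ℕ) - 2 * ((2 : ℝ) ^ l / 2 ^ (k + 1) / 50)))
        (Ioo (Real.log (j * 2 ^ l : ℕ) + 4 / 5 * ((2 : ℝ) ^ l / 2 ^ (k + 1)))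
          (Real.log ((j + 1) * 2 ^ l : ℕ) - 2 * ((2 : ℝ) ^ l / 2 ^ (k + 1) / 50))) := by
      intro i j hi hij
      rw [Set.disjoint_left]
      rintro x ⟨_, h2⟩ ⟨h3, _⟩
      have h4 : (i + 1) * 2 ^ l ≤ j * 2 ^ l := Nat.mul_le_mul_right _ hij
      have h5 : 0 < (i + 1) * 2 ^ l := by positivity
      have h6 := Real.log_le_log (by exact_mod_cast h5 : (0 : ℝ) < ((i + 1) * 2 ^ l : ℕ))
        (by exact_mod_cast h4 : (((i + 1) * 2 ^ l : ℕ) : ℝ) ≤ ((j * 2 ^ l : ℕ) : ℝ))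
      rw [← hτ] at h2 h3
      linarith
    rcases Nat.lt_or_gt_of_ne hij with h | h
    · exact hmono i j (hj12 i hi).1 h
    · exact (hmono j i (hj12 j hj).1 h).symm
  · -- the lower bound
    intro j hj x hx
    obtain ⟨g1, g2⟩ := Finset.mem_filter.1 hj
    have h1 := bad_large hRH (σ := σ) (by linarith) (by linarith) hlk (by omega) g1 g2 hpp hx.1 hx.2
    show c ≤ ‖EE (τ / 50) (4 / 5 * τ) σ x‖ ^ 2 * Real.exp (-(2 * σ * x))
    rw [hc]
    have h2 : (2 : ℝ) ^ (-(2 * σ * (k + 1))) ≤ Real.exp (-(2 * σ * x)) := by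
      rw [Real.rpow_def_of_pos (by norm_num), Real.exp_le_exp]
      have h3 : x ≤ Real.log 2 * (k + 1) := by
        have h4 : (j + 1) * 2 ^ l ≤ 2 ^ (k + 1) := by
          calc (j + 1) * 2 ^ l ≤ 2 ^ (k - l + 1) * 2 ^ l := Nat.mul_le_mul_right _ (hj12 j hj).2
            _ = 2 ^ (k + 1) := by rw [← pow_add]; congr 1; omega
        have h5 : 0 < (j + 1) * 2 ^ l := by positivity
        have h6 := Real.log_le_log (by exact_mod_cast h5 : (0 : ℝ) < ((j + 1) * 2 ^ l : ℕ))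
          (by exact_mod_cast h4 : (((j + 1) * 2 ^ l : ℕ) : ℝ) ≤ ((2 ^ (k + 1) : ℕ) : ℝ))
        have h7 : Real.log ((2 ^ (k + 1) : ℕ) : ℝ) = Real.log 2 * (k + 1) := by
          push_cast
          rw [Real.log_pow]
          push_cast
          ring
        have h8 := hx.2
        rw [← hτ] at h8
        linarith
      have h9 : σ * x ≤ σ * (Real.log 2 * (k + 1)) := by
        apply mul_le_mul_of_nonneg_left h3
        rw [hσ]
        positivity
      linarith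
    gcongr

end Pool.Agent.W327.MO
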