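import Pool.Agent.W306.A2

/-! # MO-BB, part 1: the kernel and the mean square on a line -/

set_option autoImplicit false

open MeasureTheory Filter Topology Set

namespace Pool.Agent.W327.MO

open Pool.Agent.H295R2 Pool.Agent.W306

noncomputable section

/-- the real forward average -/
def avgR (η : ℝ) (g : ℝ → ℝ) (u : ℝ) : ℝ := (1 / η) * ∫ v in (0:ℝ)..η, g (u + v)

lemma avg_ofReal {η : ℝ} (g : ℝ → ℝ) (u : ℝ) :
    avg η (fun x => (g x : ℂ)) u = (avgR η g u : ℂ) := by
  unfold avg avgR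
  rw [intervalIntegral.integral_ofReal]
  push_cast
  rfl

lemma avgR_nonneg {η : ℝ} (hη : 0 < η) {g : ℝ → ℝ} (hg : ∀ x, 0 ≤ g x) (u : ℝ) :
    0 ≤ avgR η g u := by
  unfold avgR
  have := intervalIntegral.integral_nonneg (μ := volume) hη.le (fun v _ => hg (u + v))
  positivity

lemma avgR_le {η : ℝ} (hη : 0 < η) {g : ℝ → ℝ} (hg : ∀ x, g x ≤ 1)
    (hi : ∀ a b, IntervalIntegrable g volume a b) (u : ℝ) : avgR η g u ≤ 1 := by
  unfold avgR
  have h1 : ∫ v in (0:ℝ)..η, g (u + v) ≤ ∫ v in (0:ℝ)..η, (1 : ℝ) := by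
    apply intervalIntegral.integral_mono_on hη.le _ _ (fun v _ => hg _)
    · have := (hi u (u + η)).comp_add_left u
      simpa using this
    · exact intervalIntegrable_const
  rw [intervalIntegral.integral_const, smul_eq_mul, mul_one, sub_zero] at h1
  calc 1 / η * ∫ v in (0:ℝ)..η, g (u + v) ≤ 1 / η * η := by gcongr
    _ = 1 := by field_simp

lemma avgR_one {η : ℝ} (hη : 0 < η) {g : ℝ → ℝ} {u : ℝ} (h : ∀ v, u ≤ v → v ≤ u + η → g v = 1) :
    avgR η g u = 1 := by
  unfold avgR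
  have : ∫ v in (0:ℝ)..η, g (u + v) = ∫ v in (0:ℝ)..η, (1:ℝ) := by
    apply intervalIntegral.integral_congr
    intro v hv
    rw [uIcc_of_le hη.le] at hv
    exact h _ (by linarith [hv.1]) (by linarith [hv.2])
  rw [this, intervalIntegral.integral_const, smul_eq_mul, mul_one, sub_zero]
  field_simp

lemma avgR_zero {η : ℝ} (hη : 0 < η) {g : ℝ → ℝ} {u : ℝ} (h : ∀ v, u ≤ v → v ≤ u + η → g v = 0) :
    avgR η g u = 0 := by
  unfold avgR
  have : ∫ v in (0:ℝ)..η, g (u + v) = ∫ v in (0:ℝ)..η, (0:ℝ) := by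
    apply intervalIntegral.integral_congr
    intro v hv
    rw [uIcc_of_le hη.le] at hv
    exact h _ (by linarith [hv.1]) (by linarith [hv.2])
  rw [this]
  simp

/-- the box -/
def boxR (w : ℝ) (u : ℝ) : ℝ := (Ico (0:ℝ) w).indicator (fun _ => 1) u

def boxC (w : ℝ) (u : ℝ) : ℂ := (boxR w u : ℂ)

lemma boxR_nonneg (w u : ℝ) : 0 ≤ boxR w u := indicator_nonneg (fun _ _ => zero_le_one) _

lemma boxR_le (w u : ℝ) : boxR w u ≤ 1 := by
  unfold boxR
  by_cases h : u ∈ Ico (0:ℝ) w
  · rw [indicator_of_mem h]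
  · rw [indicator_of_notMem h]; exact zero_le_one

lemma boxR_meas (w : ℝ) : Measurable (boxR w) :=
  measurable_const.indicator measurableSet_Ico

lemma boxC_nice (w : ℝ) : Nice (boxC w) 1 0 0 where
  meas := Complex.measurable_ofReal.comp (boxR_meas w)
  bound := by
    intro u
    unfold boxC
    rw [Complex.norm_real, Real.norm_of_nonneg (boxR_nonneg w u)]
    simp only [zero_mul, Real.exp_zero, mul_one]
    exact boxR_le w u
  zero := by
    intro u hu
    unfold boxC boxR
    rw [indicator_of_notMem (fun h => absurd h.1 (not_le.2 hu))]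
    simp

lemma boxR_int (w a b : ℝ) : IntervalIntegrable (boxR w) volume a b := by
  refine (intervalIntegrable_const (c := (1:ℝ))).mono_fun (boxR_meas w).aestronglyMeasurable
    (Eventually.of_forall fun u => ?_)
  show ‖boxR w u‖ ≤ ‖(1:ℝ)‖
  rw [Real.norm_of_nonneg (boxR_nonneg w u), norm_one]
  exact boxR_le w u

/-- the doubly averaged box -/
def WR (η w : ℝ) : ℝ → ℝ := avgR η (avgR η (boxR w))

lemma WR_eq (η w u : ℝ) : avg η (avg η (boxC w)) u = (WR η w u : ℂ) := by
  have h1 : avg η (boxC w) = fun x => (avgR η (boxR w) x : ℂ) := by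
    ext x
    exact avg_ofReal _ _
  rw [h1, avg_ofReal]
  rfl

lemma avgR_cont {η : ℝ} {g : ℝ → ℝ} (hi : ∀ a b, IntervalIntegrable g volume a b) :
    Continuous (avgR η g) := by
  unfold avgR
  refine continuous_const.mul ?_
  have h1 : ∀ u : ℝ, ∫ v in (0:ℝ)..η, g (u + v) = (∫ v in (0:ℝ)..(u + η), g v) - ∫ v in (0:ℝ)..u, g v := by
    intro u
    rw [intervalIntegral.integral_comp_add_left (fun v => g v) u, add_zero,
      intervalIntegral.integral_interval_sub_left (hi _ _) (hi _ _)]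
  simp_rw [h1]
  have h2 := intervalIntegral.continuous_primitive (μ := volume) (fun a b => hi a b) 0
  exact (h2.comp (continuous_id.add continuous_const)).sub h2

lemma WR_nonneg {η : ℝ} (hη : 0 < η) (w u : ℝ) : 0 ≤ WR η w u :=
  avgR_nonneg hη (fun x => avgR_nonneg hη (boxR_nonneg w) x) u

lemma WR_le {η : ℝ} (hη : 0 < η) (w u : ℝ) : WR η w u ≤ 1 :=
  avgR_le hη (fun x => avgR_le hη (boxR_le w) (boxR_int w) x)
    (fun a b => (avgR_cont (boxR_int w)).intervalIntegrable a b) u

lemma WR_one {η : ℝ} (hη : 0 < η) {w u : ℝ} (h0 : 0 ≤ u) (h1 : u < w - 2 * η) : WR η w u = 1 := by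
  apply avgR_one hη
  intro v hv1 hv2
  apply avgR_one hη
  intro x hx1 hx2
  unfold boxR
  rw [indicator_of_mem]
  exact ⟨by linarith, by linarith⟩

lemma WR_zero {η : ℝ} (hη : 0 < η) {w u : ℝ} (h : u < -(2 * η) ∨ w ≤ u) : WR η w u = 0 := by
  apply avgR_zero hη
  intro v hv1 hv2
  apply avgR_zero hη
  intro x hx1 hx2
  unfold boxR
  rw [indicator_of_notMem]
  rintro ⟨h3, h4⟩
  rcases h with h | h <;> linarith

lemma Lap_box_le {w : ℝ} (hw : 0 < w) {s : ℂ} (hs : 0 < s.re) : ‖Lap (boxC w) s‖ ≤ w := by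
  unfold Lap
  have h1 : ∀ u : ℝ, ‖boxC w u * Complex.exp (-(s * u))‖ ≤ boxR w u := by
    intro u
    rw [norm_mul, norm_exp_neg_mul]
    unfold boxC
    rw [Complex.norm_real, Real.norm_of_nonneg (boxR_nonneg w u)]
    by_cases hu : u ∈ Ico (0:ℝ) w
    · have h2 : Real.exp (-(s.re * u)) ≤ 1 := by
        rw [Real.exp_le_one_iff]
        have := mul_nonneg hs.le hu.1
        linarith
      have := boxR_nonneg w u
      nlinarith
    · have h2 : boxR w u = 0 := by
        unfold boxR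
        rw [indicator_of_notMem hu]
      rw [h2, zero_mul]
  have h2 : Integrable (boxR w) := by
    unfold boxR
    rw [integrable_indicator_iff measurableSet_Ico]
    exact integrableOn_const (by simp)
  refine (norm_integral_le_of_norm_le h2 (Eventually.of_forall h1)).trans ?_
  unfold boxR
  rw [integral_indicator measurableSet_Ico]
  simp [hw.le]

lemma Lap_box_eq {w : ℝ} (hw : 0 < w) {s : ℂ} (hs : 0 < s.re) :
    Lap (boxC w) s = (1 - Complex.exp (-(s * w))) / s := by
  have hs0 : s ≠ 0 := by rintro rfl; simp at hs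
  unfold Lap
  have h1 : ∀ u : ℝ, boxC w u * Complex.exp (-(s * u)) =
      (Ico (0:ℝ) w).indicator (fun u : ℝ => Complex.exp (-s * u)) u := by
    intro u
    unfold boxC boxR
    by_cases hu : u ∈ Ico (0:ℝ) w
    · rw [indicator_of_mem hu, indicator_of_mem hu]
      simp
    · rw [indicator_of_notMem hu, indicator_of_notMem hu]
      simp
  simp_rw [h1]
  rw [integral_indicator measurableSet_Ico, integral_Ico_eq_integral_Ioc,
    ← intervalIntegral.integral_of_le hw.le, integral_exp_mul_complex (neg_ne_zero.2 hs0)]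
  simp only [Complex.ofReal_zero, mul_zero, Complex.exp_zero]
  rw [neg_mul]
  field_simp
  ring

lemma Lap_box_le' {w : ℝ} (hw : 0 < w) {s : ℂ} (hs : 0 < s.re) : ‖Lap (boxC w) s‖ ≤ 2 / ‖s‖ := by
  have hs0 : 0 < ‖s‖ := norm_pos_iff.mpr (by rintro rfl; simp at hs)
  rw [Lap_box_eq hw hs, norm_div]
  have h1 : ‖1 - Complex.exp (-(s * w))‖ ≤ 2 := by
    have h2 : ‖Complex.exp (-(s * w))‖ ≤ 1 := by
      rw [norm_exp_neg_mul, Real.exp_le_one_iff]
      have : 0 < s.re * w := by positivity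
      linarith
    calc _ ≤ ‖(1:ℂ)‖ + ‖Complex.exp (-(s * w))‖ := norm_sub_le _ _
      _ ≤ 2 := by rw [norm_one]; linarith
  gcongr

end

end Pool.Agent.W327.MO
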