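import Pool.Agent.W327.MO.BB2
import Pool.Agent.W164.MO.Defs

/-! # MO-BB, part 3: the blocks -/

set_option autoImplicit false

open MeasureTheory Filter Topology Set

namespace Pool.Agent.W327.MO

open Pool.Agent.H295R2 Pool.Agent.W306 Pool.Agent.W164.MO

noncomputable section

open Classical in
/-- proper powers in a short interval -/
lemma powers_card {k X L a : ℕ} (ha : 2 ≤ a) (hX : 2 ^ k ≤ X) :
    (((Finset.Ico X (X + L)).filter (fun m => ∃ r : ℕ, r ^ a = m)).card : ℝ) ≤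
      L / Real.sqrt (2 ^ k) + 1 := by
  set D : ℝ := Real.sqrt (2 ^ k) with hD
  have hD0 : 0 < D := Real.sqrt_pos.2 (by positivity)
  set S : Finset ℕ := (Finset.range (X + L + 1)).filter (fun r => X ≤ r ^ a ∧ r ^ a < X + L) with hS
  have hsub : (Finset.Ico X (X + L)).filter (fun m => ∃ r : ℕ, r ^ a = m) ⊆
      S.image (fun r => r ^ a) := by
    intro m hm
    obtain ⟨h1, r, hr⟩ := Finset.mem_filter.1 hm
    rw [Finset.mem_Ico] at h1
    refine Finset.mem_image.2 ⟨r, Finset.mem_filter.2 ⟨Finset.mem_range.2 ?_, ?_⟩, hr⟩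
    · have : r ≤ r ^ a := Nat.le_self_pow (by omega) r
      omega
    · rw [hr]; exact h1
  have hc1 : ((Finset.Ico X (X + L)).filter (fun m => ∃ r : ℕ, r ^ a = m)).card ≤ S.card :=
    (Finset.card_le_card hsub).trans Finset.card_image_le
  have hc2 : (S.card : ℝ) ≤ L / D + 1 := by
    rcases S.eq_empty_or_nonempty with h0 | h0
    · rw [h0, Finset.card_empty]
      push_cast
      positivity
    · set r0 := S.min' h0 with hr0
      have hr0S : r0 ∈ S := Finset.min'_mem _ _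
      obtain ⟨-, g1, g2⟩ := Finset.mem_filter.1 hr0S
      have hr0pos : 1 ≤ r0 := by
        by_contra hcon
        have h1 : r0 = 0 := by omega
        rw [h1, zero_pow (by omega)] at g1
        have : 0 < 2 ^ k := by positivity
        omega
      have hDr : D ≤ (r0 : ℝ) ^ (a - 1) := by
        rw [hD, Real.sqrt_le_iff]
        refine ⟨by positivity, ?_⟩
        have h1 : (2 ^ k : ℕ) ≤ (r0 ^ (a - 1)) ^ 2 := by
          calc 2 ^ k ≤ r0 ^ a := hX.trans g1
            _ ≤ r0 ^ ((a - 1) * 2) := Nat.pow_le_pow_right hr0pos (by omega)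
            _ = _ := pow_mul _ _ _
        exact_mod_cast h1
      have hsub2 : S ⊆ Finset.Icc r0 (r0 + ⌊(L : ℝ) / D⌋₊) := by
        intro r hr
        obtain ⟨-, f1, f2⟩ := Finset.mem_filter.1 hr
        have hle : r0 ≤ r := Finset.min'_le _ _ hr
        rw [Finset.mem_Icc]
        refine ⟨hle, ?_⟩
        have hleR : (r0 : ℝ) ≤ r := by exact_mod_cast hle
        have h1 : ((r : ℝ) - r0) * (r0 : ℝ) ^ (a - 1) ≤ L := by
          have h2 : (r0 : ℝ) ^ a = r0 * (r0 : ℝ) ^ (a - 1) := by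
            rw [← pow_succ']; congr 1; omega
          have h3 : (r : ℝ) ^ a = r * (r : ℝ) ^ (a - 1) := by
            rw [← pow_succ']; congr 1; omega
          have h4 : (r0 : ℝ) ^ (a - 1) ≤ (r : ℝ) ^ (a - 1) := by gcongr
          have h5 : ((r ^ a : ℕ) : ℝ) ≤ ((X + L : ℕ) : ℝ) := by exact_mod_cast f2.le
          have h6 : (X : ℝ) ≤ ((r0 ^ a : ℕ) : ℝ) := by exact_mod_cast g1
          push_cast at h5 h6
          have h7 : (r : ℝ) * (r0 : ℝ) ^ (a - 1) ≤ r * (r : ℝ) ^ (a - 1) := by gcongr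
          linarith
        have h2 : ((r : ℝ) - r0) ≤ L / D := by
          rw [le_div_iff₀ hD0]
          refine le_trans ?_ h1
          apply mul_le_mul_of_nonneg_left hDr
          linarith
        have h3 : r - r0 ≤ ⌊(L : ℝ) / D⌋₊ := by
          rw [Nat.le_floor_iff (by positivity), Nat.cast_sub hle]
          exact h2
        omega
      have h1 := Finset.card_le_card hsub2
      rw [Nat.card_Icc] at h1
      have h2 : (S.card : ℝ) ≤ ((⌊(L : ℝ) / D⌋₊ + 1 : ℕ) : ℝ) := by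
        exact_mod_cast (by omega : S.card ≤ ⌊(L : ℝ) / D⌋₊ + 1)
      push_cast at h2
      have h3 : (⌊(L : ℝ) / D⌋₊ : ℝ) ≤ L / D := Nat.floor_le (by positivity)
      linarith
  exact (by exact_mod_cast hc1 : (_ : ℝ) ≤ _).trans hc2

open ArithmeticFunction in
/-- the von Mangoldt function on a block -/
lemma Lambda_block {k X L : ℕ} (hX : 2 ^ k ≤ X) (hXL : X + L ≤ 2 ^ (k + 1)) :
    ∑ m ∈ Finset.Ico X (X + L), Λ m ≤ (k + 1) * Real.log 2 *
      (((Finset.Ico X (X + L)).filter Nat.Prime).card + k * (L / Real.sqrt (2 ^ k) + 1)) := by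
  classical
  set B := Finset.Ico X (X + L) with hB
  have hlog : ∀ m ∈ B, Λ m ≤ (k + 1) * Real.log 2 := by
    intro m hm
    rw [hB, Finset.mem_Ico] at hm
    refine vonMangoldt_le_log.trans ?_
    have h1 : (m : ℝ) ≤ 2 ^ (k + 1) := by exact_mod_cast (by omega : m ≤ 2 ^ (k + 1))
    have h2 : (0 : ℝ) < m := by
      have : 0 < 2 ^ k := by positivity
      exact_mod_cast (by omega : 0 < m)
    have h3 := Real.log_le_log h2 h1
    rw [Real.log_pow] at h3
    push_cast at h3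
    exact h3
  have h0 : 0 ≤ (k + 1) * Real.log 2 := by
    have := Real.log_pos (by norm_num : (1 : ℝ) < 2)
    positivity
  have h1 : ∑ m ∈ B, Λ m ≤ ∑ m ∈ B.filter (fun m => IsPrimePow m), (k + 1) * Real.log 2 := by
    rw [Finset.sum_filter]
    refine Finset.sum_le_sum fun m hm => ?_
    split_ifs with h
    · exact hlog m hm
    · rw [vonMangoldt_apply, if_neg h]
  refine h1.trans ?_
  rw [Finset.sum_const, nsmul_eq_mul, mul_comm]
  refine mul_le_mul_of_nonneg_left ?_ h0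
  have hsub : B.filter (fun m => IsPrimePow m) ⊆ B.filter Nat.Prime ∪
      (Finset.Icc 2 k).biUnion (fun a => B.filter (fun m => ∃ r : ℕ, r ^ a = m)) := by
    intro m hm
    obtain ⟨g1, g2⟩ := Finset.mem_filter.1 hm
    rw [isPrimePow_nat_iff] at g2
    obtain ⟨p, a, hp, ha, hpa⟩ := g2
    rw [Finset.mem_union]
    rcases Nat.lt_or_ge a 2 with h | h
    · left
      have : a = 1 := by omega
      rw [this, pow_one] at hpa
      rw [← hpa] at g1 ⊢
      exact Finset.mem_filter.2 ⟨g1, hp⟩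
    · right
      refine Finset.mem_biUnion.2 ⟨a, Finset.mem_Icc.2 ⟨h, ?_⟩, Finset.mem_filter.2 ⟨g1, p, hpa⟩⟩
      rw [hB, Finset.mem_Ico] at g1
      have h2 : 2 ^ a < 2 ^ (k + 1) := by
        calc 2 ^ a ≤ p ^ a := Nat.pow_le_pow_left hp.two_le a
          _ = m := hpa
          _ < 2 ^ (k + 1) := by omega
      have := (Nat.pow_lt_pow_iff_right (by norm_num : 1 < 2)).1 h2
      omega
  have hcard : (B.filter (fun m => IsPrimePow m)).card ≤ (B.filter Nat.Prime).card +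
      ∑ a ∈ Finset.Icc 2 k, (B.filter (fun m => ∃ r : ℕ, r ^ a = m)).card :=
    (Finset.card_le_card hsub).trans ((Finset.card_union_le _ _).trans
      (Nat.add_le_add_left Finset.card_biUnion_le _))
  have hcardR : ((B.filter (fun m => IsPrimePow m)).card : ℝ) ≤ (B.filter Nat.Prime).card +
      ∑ a ∈ Finset.Icc 2 k, ((B.filter (fun m => ∃ r : ℕ, r ^ a = m)).card : ℝ) := by
    exact_mod_cast hcard
  refine hcardR.trans ?_
  refine add_le_add le_rfl ?_
  calc ∑ a ∈ Finset.Icc 2 k, ((B.filter (fun m => ∃ r : ℕ, r ^ a = m)).card : ℝ)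
      ≤ ∑ a ∈ Finset.Icc 2 k, (L / Real.sqrt (2 ^ k) + 1) := by
        refine Finset.sum_le_sum fun a ha => ?_
        rw [Finset.mem_Icc] at ha
        convert powers_card (L := L) ha.1 hX
    _ = ((k + 1 - 2 : ℕ) : ℝ) * (L / Real.sqrt (2 ^ k) + 1) := by
        rw [Finset.sum_const, Nat.card_Icc, nsmul_eq_mul]
    _ ≤ k * (L / Real.sqrt (2 ^ k) + 1) := by
        have h2 : ((k + 1 - 2 : ℕ) : ℝ) ≤ k := by exact_mod_cast (by omega : k + 1 - 2 ≤ k)
        gcongr

/-- the smoothed sum in the interior of a block -/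
lemma EE_block (hRH : RiemannHypothesis) {σ η w x : ℝ} {X Y : ℕ} (hσ : 1 / 2 < σ) (hσ1 : σ ≤ 1)
    (hη : 0 < η) (hη1 : η ≤ 1) (hY : 1 ≤ Y) (h1 : Real.log X + w < x)
    (h2 : x < Real.log Y - 2 * η) :
    EE η w σ x = ((∑ m ∈ Finset.Ico X Y, aL m * WR η w (x - Real.log m) : ℝ) : ℂ) := by
  have h3 : ∀ m ∉ Finset.Ico X Y, ((aL m * WR η w (x - Real.log m) : ℝ) : ℂ) = 0 := by
    intro m hm
    rw [Finset.mem_Ico, not_and_or, not_le, not_lt] at hm
    rcases Nat.eq_zero_or_pos m with h0 | h0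
    · rw [h0]
      simp [aL]
    · have hm0 : (0 : ℝ) < m := by exact_mod_cast h0
      rw [WR_zero hη, mul_zero, Complex.ofReal_zero]
      rcases hm with h | h
      · right
        have h4 := Real.log_lt_log hm0 (by exact_mod_cast h : (m : ℝ) < X)
        linarith
      · left
        have h4 := Real.log_le_log (by exact_mod_cast hY : (0 : ℝ) < Y)
          (by exact_mod_cast h : (Y : ℝ) ≤ m)
        linarith
  have h4 := (hasSum_sum_of_ne_finset_zero h3).unique (EE_sum (x := x) (w := w) hRH hσ hσ1 hη hη1)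
  rw [← h4]
  push_cast
  rfl

/-- the mass of the kernel -/
lemma W_mass {η w x τ : ℝ} {X Y : ℕ} (hX : 1 ≤ X) (hY : 1 ≤ Y) (hτ : 0 < τ) (hτ1 : τ ≤ 1 / 2)
    (hη : η = τ / 50) (hw : w = 4 / 5 * τ) (h1 : Real.log X + w < x)
    (h2 : x < Real.log Y - 2 * η) :
    (27 / 50) * τ * X - 1 ≤ ∑ m ∈ Finset.Ico X Y, WR η w (x - Real.log m) := by
  have hη0 : 0 < η := by rw [hη]; positivity
  have hX0 : (0 : ℝ) < X := by exact_mod_cast hX
  have hY0 : (0 : ℝ) < Y := by exact_mod_cast hY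
  set y : ℝ := w - 2 * η with hy
  have hyτ : y = 19 / 25 * τ := by rw [hy, hη, hw]; ring
  have hy0 : 0 < y := by rw [hyτ]; positivity
  have hy1 : y ≤ 19 / 50 := by rw [hyτ]; linarith
  set A : ℝ := Real.exp (x - y) with hA
  set B : ℝ := Real.exp x with hB
  have hA0 : 0 < A := Real.exp_pos _
  have hB0 : 0 < B := Real.exp_pos _
  have hXB : (X : ℝ) ≤ B := by
    rw [hB, ← Real.log_le_iff_le_exp hX0]
    have : 0 < w := by rw [hw]; positivity
    linarith
  have hXA : (X : ℝ) < A := by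
    rw [hA, ← Real.log_lt_iff_lt_exp hX0]
    linarith
  have hBY : B < Y := by
    rw [hB, ← Real.lt_log_iff_exp_lt hY0]
    linarith
  have hAB : A * Real.exp y = B := by
    rw [hA, hB, ← Real.exp_add]
    congr 1
    ring
  have hexp := Real.add_one_le_exp y
  have hdiff : 18 / 25 * y * X ≤ B - A := by
    have h3 : A * (y + 1) ≤ B := by
      rw [← hAB]
      gcongr
    have h4 : 18 / 25 * (y + 1) ≤ 1 := by linarith
    have h5 : A ≤ B / (y + 1) := by rw [le_div_iff₀ (by linarith)]; exact h3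
    have h6 : B / (y + 1) = B - B * (y / (y + 1)) := by field_simp; ring
    have h7 : 18 / 25 * y ≤ y / (y + 1) := by
      rw [le_div_iff₀ (by linarith)]
      nlinarith
    have h8 : X * (18 / 25 * y) ≤ B * (y / (y + 1)) := by gcongr
    linarith
  have hsub : Finset.Ioc ⌊A⌋₊ ⌊B⌋₊ ⊆ Finset.Ico X Y := by
    intro m hm
    rw [Finset.mem_Ioc] at hm
    rw [Finset.mem_Ico]
    have h3 : A < m := (Nat.floor_lt hA0.le).1 hm.1
    have h4 : (m : ℝ) ≤ B := (Nat.le_floor_iff hB0.le).1 hm.2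
    constructor
    · exact_mod_cast (hXA.trans h3).le
    · exact_mod_cast h4.trans_lt hBY
  have hsum : ((Finset.Ioc ⌊A⌋₊ ⌊B⌋₊).card : ℝ) ≤
      ∑ m ∈ Finset.Ico X Y, WR η w (x - Real.log m) := by
    calc ((Finset.Ioc ⌊A⌋₊ ⌊B⌋₊).card : ℝ) = ∑ m ∈ Finset.Ioc ⌊A⌋₊ ⌊B⌋₊, (1 : ℝ) := by simp
      _ = ∑ m ∈ Finset.Ioc ⌊A⌋₊ ⌊B⌋₊, WR η w (x - Real.log m) := by
          refine Finset.sum_congr rfl fun m hm => ?_
          rw [Finset.mem_Ioc] at hm
          have h3 : A < m := (Nat.floor_lt hA0.le).1 hm.1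
          have h4 : (m : ℝ) ≤ B := (Nat.le_floor_iff hB0.le).1 hm.2
          have hm0 : (0 : ℝ) < m := hA0.trans h3
          symm
          apply WR_one hη0
          · rw [hB, ← Real.log_le_iff_le_exp hm0] at h4
            linarith
          · rw [hA, ← Real.lt_log_iff_exp_lt hm0] at h3
            linarith
      _ ≤ _ := Finset.sum_le_sum_of_subset_of_nonneg hsub fun m _ _ => WR_nonneg hη0 _ _
  refine le_trans ?_ hsum
  have hle : ⌊A⌋₊ ≤ ⌊B⌋₊ := Nat.floor_le_floor (by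
    have : 0 ≤ 18 / 25 * y * X := by positivity
    linarith)
  rw [Nat.card_Ioc, Nat.cast_sub hle]
  have h3 : (⌊A⌋₊ : ℝ) ≤ A := Nat.floor_le hA0.le
  have h4 : B - 1 < ⌊B⌋₊ := Nat.sub_one_lt_floor B
  have h5 : 27 / 50 * τ * X ≤ 18 / 25 * y * X := by
    rw [hyτ]
    have : 0 ≤ τ * X := by positivity
    linarith
  linarith

/-- the smoothed sum on a bad block is large -/
lemma bad_large (hRH : RiemannHypothesis) {σ : ℝ} (hσ : 1 / 2 < σ) (hσ1 : σ ≤ 1)
    {k l j : ℕ} (hlk : l ≤ k) (hk : 100 ≤ k) (hj : j ∈ idx k l) (hbad : Bad k l j)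
    (hpp : (k + 1) * (k + 1) * ((2 : ℝ) ^ l / Real.sqrt (2 ^ k) + 1) + 1 ≤ 1 / 20 * 2 ^ l)
    {x : ℝ} (h1 : Real.log (j * 2 ^ l : ℕ) + 4 / 5 * ((2 : ℝ) ^ l / 2 ^ (k + 1)) < x)
    (h2 : x < Real.log ((j + 1) * 2 ^ l : ℕ) - 2 * ((2 : ℝ) ^ l / 2 ^ (k + 1) / 50)) :
    1 / 10 * 2 ^ l ≤ ‖EE ((2 : ℝ) ^ l / 2 ^ (k + 1) / 50) (4 / 5 * ((2 : ℝ) ^ l / 2 ^ (k + 1))) σ x‖ := by
  set τ : ℝ := (2 : ℝ) ^ l / 2 ^ (k + 1) with hτ
  have hτ0 : 0 < τ := by positivity
  have hτ1 : τ ≤ 1 / 2 := by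
    rw [hτ, pow_succ, div_le_iff₀ (by positivity)]
    have : (2 : ℝ) ^ l ≤ 2 ^ k := pow_le_pow_right₀ (by norm_num) hlk
    linarith
  unfold idx at hj
  rw [Finset.mem_Ico] at hj
  have hX : 2 ^ k ≤ j * 2 ^ l := by
    calc 2 ^ k = 2 ^ (k - l) * 2 ^ l := by rw [← pow_add]; congr 1; omega
      _ ≤ j * 2 ^ l := Nat.mul_le_mul_right _ hj.1
  have hY : (j + 1) * 2 ^ l ≤ 2 ^ (k + 1) := by
    calc (j + 1) * 2 ^ l ≤ 2 ^ (k - l + 1) * 2 ^ l := Nat.mul_le_mul_right _ (by omega)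
      _ = 2 ^ (k + 1) := by rw [← pow_add]; congr 1; omega
  have hXY : (j + 1) * 2 ^ l = j * 2 ^ l + 2 ^ l := by ring
  have h2k : 1 ≤ 2 ^ k := Nat.one_le_two_pow
  set X := j * 2 ^ l with hXd
  have hX1 : 1 ≤ X := by omega
  have hY1 : 1 ≤ (j + 1) * 2 ^ l := Nat.mul_pos (by omega) (by positivity)
  rw [EE_block hRH hσ hσ1 (by positivity) (by linarith) hY1 h1 h2, Complex.norm_real,
    Real.norm_eq_abs]
  have hmass := W_mass hX1 hY1 hτ0 hτ1 rfl rfl h1 h2
  rw [hXY] at hmass hY ⊢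
  have hΛ := Lambda_block hX hY
  have hη0 : 0 < τ / 50 := by positivity
  have hle : ∑ m ∈ Finset.Ico X (X + 2 ^ l), aL m * WR (τ / 50) (4 / 5 * τ) (x - Real.log m) ≤
      ∑ m ∈ Finset.Ico X (X + 2 ^ l), ArithmeticFunction.vonMangoldt m -
      ∑ m ∈ Finset.Ico X (X + 2 ^ l), WR (τ / 50) (4 / 5 * τ) (x - Real.log m) := by
    rw [← Finset.sum_sub_distrib]
    refine Finset.sum_le_sum fun m hm => ?_
    rw [Finset.mem_Ico] at hm
    have g1 := WR_nonneg hη0 (4 / 5 * τ) (x - Real.log m)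
    have g2 := WR_le hη0 (4 / 5 * τ) (x - Real.log m)
    have g3 := ArithmeticFunction.vonMangoldt_nonneg (n := m)
    unfold aL
    rw [if_neg (by omega)]
    nlinarith
  -- the number of primes
  have hkR : (100 : ℝ) ≤ k := by exact_mod_cast hk
  have hπ : (((Finset.Ico X (X + 2 ^ l)).filter Nat.Prime).card : ℝ) * (8 * k) ≤ 2 ^ l := by
    unfold Bad blk at hbad
    rw [hXY] at hbad
    have h3 : ((8 * k * ((Finset.Ico X (X + 2 ^ l)).filter Nat.Prime).card : ℕ) : ℝ) ≤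
      ((2 ^ l : ℕ) : ℝ) := by exact_mod_cast hbad.le
    push_cast at h3
    linarith
  set π₀ : ℝ := (((Finset.Ico X (X + 2 ^ l)).filter Nat.Prime).card : ℝ) with hπ0
  have hπ00 : 0 ≤ π₀ := Nat.cast_nonneg _
  have hl2 : Real.log 2 < 7 / 10 := by
    have := Real.log_two_lt_d9
    linarith
  have hl20 : 0 < Real.log 2 := Real.log_pos (by norm_num)
  have hmain : (k + 1) * Real.log 2 * π₀ ≤ 9 / 100 * 2 ^ l := by
    have h3 : (k + 1) * Real.log 2 ≤ 9 / 100 * (8 * k) := by nlinarith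
    calc (k + 1) * Real.log 2 * π₀ ≤ 9 / 100 * (8 * k) * π₀ := by gcongr
      _ = 9 / 100 * (π₀ * (8 * k)) := by ring
      _ ≤ 9 / 100 * 2 ^ l := by gcongr
  set D : ℝ := (2 : ℝ) ^ l / Real.sqrt (2 ^ k) + 1 with hD
  have hD0 : 0 < D := by positivity
  have hrest : (k + 1) * Real.log 2 * (k * D) ≤ (k + 1) * (k + 1) * D := by
    have h3 : Real.log 2 * (k * D) ≤ 1 * ((k + 1) * D) := by
      gcongr
      · linarith
      · linarith
    calc (k + 1) * Real.log 2 * (k * D) = (k + 1) * (Real.log 2 * (k * D)) := by ring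
      _ ≤ (k + 1) * (1 * ((k + 1) * D)) := by gcongr
      _ = _ := by ring
  have hmass2 : 27 / 100 * (2 : ℝ) ^ l - 1 ≤ 27 / 50 * τ * X - 1 := by
    have h3 : (2 : ℝ) ^ l = 2 * (τ * 2 ^ k) := by
      rw [hτ, pow_succ]
      field_simp
    have h4 : (2 : ℝ) ^ k ≤ X := by exact_mod_cast hX
    have h5 : τ * 2 ^ k ≤ τ * X := by gcongr
    rw [h3]
    linarith
  have hΛ2 : ∑ m ∈ Finset.Ico X (X + 2 ^ l), ArithmeticFunction.vonMangoldt m ≤
      9 / 100 * 2 ^ l + (k + 1) * (k + 1) * D := by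
    refine hΛ.trans ?_
    push_cast
    calc _ = (k + 1) * Real.log 2 * π₀ + (k + 1) * Real.log 2 * (k * D) := by
          rw [hD, hπ0]; ring
      _ ≤ _ := add_le_add hmain hrest
  have hfin : ∑ m ∈ Finset.Ico X (X + 2 ^ l), aL m * WR (τ / 50) (4 / 5 * τ) (x - Real.log m) ≤
      -(1 / 10 * 2 ^ l) := by
    have : (0 : ℝ) < 2 ^ l := by positivity
    linarith
  rw [abs_of_nonpos (by have : (0 : ℝ) < 2 ^ l := by positivity
                        linarith)]
  linarith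

end

end Pool.Agent.W327.MO
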