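import Pool.Agent.W327.MO.BB2

/-! # MO-BB in a zero-free half plane, part 2: the mean square on a line -/

set_option autoImplicit false

open MeasureTheory Filter Topology Set FourierTransform

namespace Pool.Agent.W327.MO.Q

open Pool.Agent.H295R2 Pool.Agent.W306 Pool.Agent.W327.MO

noncomputable section

lemma HH_cont {σ₀ : ℝ} (h0 : 1 / 2 ≤ σ₀) (hz : ∀ s : ℂ, σ₀ < s.re → Zs s ≠ 0) {η w σ : ℝ} (hη : 0 < η) (hσ : σ₀ < σ) :
    Continuous (HH η w σ) := by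
  rw [continuous_iff_continuousAt]
  intro ξ
  set s : ℂ := σ + 2 * Real.pi * ξ * Complex.I with hs
  have hre : s.re = σ := line_re σ ξ
  have hs0 : s ≠ 0 := by
    intro h
    rw [h] at hre
    simp at hre
    linarith
  have e1 : DifferentiableAt ℂ (Lap (boxC w)) s :=
    (boxC_nice w).Lap_differentiableAt (by rw [hre]; linarith)
  have e2 := phi_differentiableAt hη hs0
  have e3 := gz_differentiableAt (hz s (by rw [hre]; exact hσ))
  have e4 : ContinuousAt (fun z => Lap (boxC w) z * phi η z ^ 2 * gz z) s := by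
    have : DifferentiableAt ℂ (fun z => Lap (boxC w) z * phi η z ^ 2 * gz z) s := by fun_prop
    exact this.continuousAt
  have e5 : Continuous (fun ξ : ℝ => (σ : ℂ) + 2 * Real.pi * ξ * Complex.I) := by fun_prop
  exact ContinuousAt.comp (f := fun ξ : ℝ => (σ : ℂ) + 2 * Real.pi * ξ * Complex.I) e4 e5.continuousAt

/-- **mean square of the smoothed sum** -/
theorem mean_square {σ₀ : ℝ} (h0 : 1 / 2 ≤ σ₀) (hz : ∀ s : ℂ, σ₀ < s.re → Zs s ≠ 0) {σ ε : ℝ} (hσ : σ₀ < σ) (hσ1 : σ ≤ 1)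
    (hε : 0 < ε) (hε1 : ε ≤ 1 / 2) :
    ∃ C : ℝ, 0 < C ∧ ∀ η w : ℝ, 0 < η → η ≤ 1 → 0 < w →
      Integrable (fun x : ℝ => ‖EE η w σ x‖ ^ 2 * Real.exp (-(2 * σ * x))) ∧
      ∫ x : ℝ, ‖EE η w σ x‖ ^ 2 * Real.exp (-(2 * σ * x)) ≤ C * w ^ (1 - 2 * ε) := by
  obtain ⟨Cf, hCf0, hCf⟩ := gz_bound (θ := σ₀) (σ := σ) (ε := ε / 2) (by linarith)
    hz hσ hσ1 (by positivity)
  set I0 : ℝ := ∫ ξ : ℝ, (1 + |2 * Real.pi * ξ|) ^ (-(1 + ε)) with hI0
  have hI0' : 0 ≤ I0 := integral_nonneg fun ξ => by positivity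
  refine ⟨10 ^ 6 * Cf ^ 2 * I0 + 1, by positivity, fun η w hη hη1 hw => ?_⟩
  have hcont := HH_cont h0 hz (w := w) hη hσ
  -- pointwise bounds
  have hpt : ∀ ξ : ℝ, ‖HH η w σ ξ‖ ^ 2 ≤ (10 ^ 6 * Cf ^ 2 * w ^ (1 - 2 * ε)) *
      (1 + |2 * Real.pi * ξ|) ^ (-(1 + ε)) := by
    intro ξ
    have hN := norm_line (ξ := ξ) (by linarith : 1 / 2 < σ)
    set s : ℂ := σ + 2 * Real.pi * ξ * Complex.I with hs
    have hsre : s.re = σ := line_re σ ξ
    have hsim : s.im = 2 * Real.pi * ξ := line_im σ ξ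
    set T : ℝ := 1 + |2 * Real.pi * ξ| with hT
    have hT0 : 0 < T := by rw [hT]; positivity
    have hs0 : 0 < ‖s‖ := by linarith
    have a0 : ‖Lap (boxC w) s‖ ≤ w := Lap_box_le hw (by rw [hsre]; linarith)
    have a1 : ‖Lap (boxC w) s‖ ≤ 10 * T⁻¹ := by
      refine (Lap_box_le' hw (by rw [hsre]; linarith)).trans ?_
      rw [← div_eq_mul_inv, div_le_div_iff₀ hs0 hT0]
      linarith
    have a2 : ‖Lap (boxC w) s‖ ^ 2 ≤ w ^ (1 - 2 * ε) * (100 * T ^ (-(1 + 2 * ε))) := by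
      have b0 : 0 ≤ ‖Lap (boxC w) s‖ := norm_nonneg _
      have b1 : ‖Lap (boxC w) s‖ ^ 2 = ‖Lap (boxC w) s‖ ^ (1 - 2 * ε) *
          ‖Lap (boxC w) s‖ ^ (1 + 2 * ε) := by
        rw [← Real.rpow_add_of_nonneg b0 (by linarith) (by linarith)]
        have : (1 - 2 * ε) + (1 + 2 * ε) = (2 : ℕ) := by push_cast; ring
        rw [this, Real.rpow_natCast]
      rw [b1]
      have b2 : ‖Lap (boxC w) s‖ ^ (1 - 2 * ε) ≤ w ^ (1 - 2 * ε) :=
        Real.rpow_le_rpow b0 a0 (by linarith)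
      have b3 : ‖Lap (boxC w) s‖ ^ (1 + 2 * ε) ≤ 100 * T ^ (-(1 + 2 * ε)) := by
        calc ‖Lap (boxC w) s‖ ^ (1 + 2 * ε) ≤ (10 * T⁻¹) ^ (1 + 2 * ε) :=
              Real.rpow_le_rpow b0 a1 (by linarith)
          _ = 10 ^ (1 + 2 * ε) * T ^ (-(1 + 2 * ε)) := by
              rw [Real.mul_rpow (by norm_num) (by positivity), Real.inv_rpow hT0.le,
                Real.rpow_neg hT0.le]
          _ ≤ 100 * T ^ (-(1 + 2 * ε)) := by
              gcongr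
              calc (10:ℝ) ^ (1 + 2 * ε) ≤ (10:ℝ) ^ (2:ℝ) :=
                    Real.rpow_le_rpow_of_exponent_le (by norm_num) (by linarith)
                _ = 100 := by norm_num
      gcongr
    have a3 : ‖phi η s‖ ≤ 10 := norm_phi_le hη hη1 (by rw [hsre]; linarith) (by rw [hsre]; linarith)
    have a4 : ‖gz s‖ ≤ Cf * T ^ (ε / 2) := by
      have := hCf s (by rw [hsre]) (by rw [hsre]; linarith)
      rw [hsim] at this
      exact this
    have e0 : HH η w σ ξ = Lap (boxC w) s * phi η s ^ 2 * gz s := rfl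
    rw [e0, norm_mul, norm_mul, norm_pow, mul_pow, mul_pow]
    have e1 : T ^ (-(1 + 2 * ε)) * (T ^ (ε / 2)) ^ 2 = T ^ (-(1 + ε)) := by
      rw [← Real.rpow_mul_natCast hT0.le, ← Real.rpow_add hT0]
      congr 1
      push_cast
      ring
    calc ‖Lap (boxC w) s‖ ^ 2 * (‖phi η s‖ ^ 2) ^ 2 * ‖gz s‖ ^ 2
        ≤ (w ^ (1 - 2 * ε) * (100 * T ^ (-(1 + 2 * ε)))) * (10 ^ 2) ^ 2 *
          (Cf * T ^ (ε / 2)) ^ 2 := by gcongr
      _ = 10 ^ 6 * Cf ^ 2 * w ^ (1 - 2 * ε) * (T ^ (-(1 + 2 * ε)) * (T ^ (ε / 2)) ^ 2) := by ring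
      _ = _ := by rw [e1]
  have hsq : Integrable (fun ξ : ℝ => ‖HH η w σ ξ‖ ^ 2) := by
    have hI := (integrable_decay' (a := 1 + ε) (by linarith)).const_mul
      (10 ^ 6 * Cf ^ 2 * w ^ (1 - 2 * ε))
    refine hI.mono' (by fun_prop) (Eventually.of_forall fun ξ => ?_)
    rw [Real.norm_of_nonneg (by positivity)]
    exact hpt ξ
  have h2 : MemLp (HH η w σ) 2 := (memLp_two_iff_integrable_sq_norm hcont.aestronglyMeasurable).2 hsq
  -- integrability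
  have h1 : Integrable (HH η w σ) := by
    have hI := (integrable_decay' (a := 3 / 2) (by norm_num)).const_mul (w * (1000 / η ^ 2) * Cf)
    refine hI.mono' hcont.aestronglyMeasurable (Eventually.of_forall fun ξ => ?_)
    set s : ℂ := σ + 2 * Real.pi * ξ * Complex.I with hs
    have hsre : s.re = σ := line_re σ ξ
    have hsim : s.im = 2 * Real.pi * ξ := line_im σ ξ
    set T : ℝ := 1 + |2 * Real.pi * ξ| with hT
    have hT1 : 1 ≤ T := by rw [hT]; linarith [abs_nonneg (2 * Real.pi * ξ)]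
    have hT0 : 0 < T := by linarith
    have a0 : ‖Lap (boxC w) s‖ ≤ w := Lap_box_le hw (by rw [hsre]; linarith)
    have a3 := norm_phi_sq_le hη hη1 (s := s) (by rw [hsre]; linarith) (by rw [hsre]; linarith)
    have a4 : ‖gz s‖ ≤ Cf * T ^ (1 / 2 : ℝ) := by
      have := hCf s (by rw [hsre]) (by rw [hsre]; linarith)
      rw [hsim] at this
      refine this.trans ?_
      gcongr
      linarith
    rw [hsim] at a3
    have e0 : HH η w σ ξ = Lap (boxC w) s * phi η s ^ 2 * gz s := rfl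
    rw [e0, norm_mul, norm_mul, norm_pow]
    have e1 : T ^ (-2 : ℝ) * T ^ (1 / 2 : ℝ) = T ^ (-(3 / 2 : ℝ)) := by
      rw [← Real.rpow_add hT0]
      norm_num
    calc ‖Lap (boxC w) s‖ * ‖phi η s‖ ^ 2 * ‖gz s‖
        ≤ w * (1000 / η ^ 2 * T ^ (-2 : ℝ)) * (Cf * T ^ (1 / 2 : ℝ)) := by gcongr
      _ = w * (1000 / η ^ 2) * Cf * (T ^ (-2 : ℝ) * T ^ (1 / 2 : ℝ)) := by ring
      _ = _ := by rw [e1]
  obtain ⟨p1, p2⟩ := Pool.Agent.Helper625.Planch.plancherel (HH η w σ) h1 h2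
  have hE : ∀ x : ℝ, ‖EE η w σ x‖ ^ 2 * Real.exp (-(2 * σ * x)) = ‖𝓕 (HH η w σ) (-x)‖ ^ 2 := by
    intro x
    rw [EE_eq, norm_mul, mul_pow]
    have h3 : ‖Complex.exp (σ * x)‖ ^ 2 * Real.exp (-(2 * σ * x)) = 1 := by
      rw [Complex.norm_exp, ← Real.exp_nat_mul, ← Real.exp_add, Real.exp_eq_one_iff]
      simp only [Complex.mul_re, Complex.ofReal_re, Complex.ofReal_im, mul_zero, sub_zero]
      push_cast
      ring
    calc _ = (‖Complex.exp (σ * x)‖ ^ 2 * Real.exp (-(2 * σ * x))) * ‖𝓕 (HH η w σ) (-x)‖ ^ 2 := by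
          ring
      _ = _ := by rw [h3, one_mul]
  have hFi : Integrable (fun x : ℝ => ‖𝓕 (HH η w σ) x‖ ^ 2) :=
    (memLp_two_iff_integrable_sq_norm p1.aestronglyMeasurable).1 p1
  simp_rw [hE]
  refine ⟨hFi.comp_neg, ?_⟩
  rw [integral_neg_eq_self (fun x : ℝ => ‖𝓕 (HH η w σ) x‖ ^ 2), p2]
  calc ∫ ξ : ℝ, ‖HH η w σ ξ‖ ^ 2
      ≤ ∫ ξ : ℝ, (10 ^ 6 * Cf ^ 2 * w ^ (1 - 2 * ε)) * (1 + |2 * Real.pi * ξ|) ^ (-(1 + ε)) :=
        integral_mono hsq ((integrable_decay' (a := 1 + ε) (by linarith)).const_mul _) hpt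
    _ = 10 ^ 6 * Cf ^ 2 * I0 * w ^ (1 - 2 * ε) := by rw [integral_const_mul]; ring
    _ ≤ (10 ^ 6 * Cf ^ 2 * I0 + 1) * w ^ (1 - 2 * ε) := by
        gcongr
        linarith

/-- the sum -/
lemma EE_sum {σ₀ : ℝ} (h0 : 1 / 2 ≤ σ₀) (hz : ∀ s : ℂ, σ₀ < s.re → Zs s ≠ 0) {σ η w x : ℝ} (hσ : σ₀ < σ) (hσ1 : σ ≤ 1) (hη : 0 < η)
    (hη1 : η ≤ 1) :
    HasSum (fun m : ℕ => ((aL m * WR η w (x - Real.log m) : ℝ) : ℂ)) (EE η w σ x) := by
  obtain ⟨Ch, hCh0, hCh⟩ := gz_bound (θ := σ₀) (σ := σ) (ε := 1 / 2) (by linarith)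
    hz hσ hσ1 (by norm_num)
  have key := perron_gen (x := x) (F := gz) (a := fun n => (aL n : ℂ)) (by linarith : 0 < σ)
    (by linarith) (fun s hs1 _ => gz_differentiableAt (hz s (by linarith))) hCh
    aL_summable (by simp [aL])
    (fun s hs => by
      have hs1 : s ≠ 1 := by rintro rfl; norm_num at hs
      rw [aL_series s (by rw [hs]; norm_num), gz_eq hs1]
      exact riemannZeta_ne_zero_of_one_lt_re (by rw [hs]; norm_num)) (boxC_nice w) hη hη1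
  simp_rw [WR_eq] at key
  push_cast
  exact key

end

end Pool.Agent.W327.MO.Q
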