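import Pool.Agent.W327.MO.BBQ2
import Pool.Agent.W327.MO.BB3

/-! # MO-BB in a zero-free half plane, part 3: the blocks -/

set_option autoImplicit false

open MeasureTheory Filter Topology Set

namespace Pool.Agent.W327.MO.Q

open Pool.Agent.H295R2 Pool.Agent.W306 Pool.Agent.W164.MO Pool.Agent.W327.MO

noncomputable section

/-- the smoothed sum in the interior of a block -/
lemma EE_block {σ₀ : ℝ} (h0 : 1 / 2 ≤ σ₀) (hz : ∀ s : ℂ, σ₀ < s.re → Zs s ≠ 0) {σ η w x : ℝ} {X Y : ℕ} (hσ : σ₀ < σ) (hσ1 : σ ≤ 1)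
    (hη : 0 < η) (hη1 : η ≤ 1) (hY : 1 ≤ Y) (h1 : Real.log X + w < x)
    (h2 : x < Real.log Y - 2 * η) :
    EE η w σ x = ((∑ m ∈ Finset.Ico X Y, aL m * WR η w (x - Real.log m) : ℝ) : ℂ) := by
  have h3 : ∀ m ∉ Finset.Ico X Y, ((aL m * WR η w (x - Real.log m) : ℝ) : ℂ) = 0 := by
    intro m hm
    rw [Finset.mem_Ico, not_and_or, not_le, not_lt] at hm
    rcases Nat.eq_zero_or_pos m with h0 | h0
    · rw [h0]
      simp [aL]
    · have hm0 : (0 : ℝ) < m := by exact_mod_cast h0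
      rw [WR_zero hη, mul_zero, Complex.ofReal_zero]
      rcases hm with h | h
      · right
        have h4 := Real.log_lt_log hm0 (by exact_mod_cast h : (m : ℝ) < X)
        linarith
      · left
        have h4 := Real.log_le_log (by exact_mod_cast hY : (0 : ℝ) < Y)
          (by exact_mod_cast h : (Y : ℝ) ≤ m)
        linarith
  have h4 := (hasSum_sum_of_ne_finset_zero h3).unique (EE_sum (x := x) (w := w) h0 hz hσ hσ1 hη hη1)
  rw [← h4]
  push_cast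
  rfl

/-- the smoothed sum on a bad block is large -/
lemma bad_large {σ₀ : ℝ} (h0 : 1 / 2 ≤ σ₀) (hz : ∀ s : ℂ, σ₀ < s.re → Zs s ≠ 0) {σ : ℝ} (hσ : σ₀ < σ) (hσ1 : σ ≤ 1)
    {k l j : ℕ} (hlk : l ≤ k) (hk : 100 ≤ k) (hj : j ∈ idx k l) (hbad : Bad k l j)
    (hpp : (k + 1) * (k + 1) * ((2 : ℝ) ^ l / Real.sqrt (2 ^ k) + 1) + 1 ≤ 1 / 20 * 2 ^ l)
    {x : ℝ} (h1 : Real.log (j * 2 ^ l : ℕ) + 4 / 5 * ((2 : ℝ) ^ l / 2 ^ (k + 1)) < x)
    (h2 : x < Real.log ((j + 1) * 2 ^ l : ℕ) - 2 * ((2 : ℝ) ^ l / 2 ^ (k + 1) / 50)) :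
    1 / 10 * 2 ^ l ≤ ‖EE ((2 : ℝ) ^ l / 2 ^ (k + 1) / 50) (4 / 5 * ((2 : ℝ) ^ l / 2 ^ (k + 1))) σ x‖ := by
  set τ : ℝ := (2 : ℝ) ^ l / 2 ^ (k + 1) with hτ
  have hτ0 : 0 < τ := by positivity
  have hτ1 : τ ≤ 1 / 2 := by
    rw [hτ, pow_succ, div_le_iff₀ (by positivity)]
    have : (2 : ℝ) ^ l ≤ 2 ^ k := pow_le_pow_right₀ (by norm_num) hlk
    linarith
  unfold idx at hj
  rw [Finset.mem_Ico] at hj
  have hX : 2 ^ k ≤ j * 2 ^ l := by
    calc 2 ^ k = 2 ^ (k - l) * 2 ^ l := by rw [← pow_add]; congr 1; omega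
      _ ≤ j * 2 ^ l := Nat.mul_le_mul_right _ hj.1
  have hY : (j + 1) * 2 ^ l ≤ 2 ^ (k + 1) := by
    calc (j + 1) * 2 ^ l ≤ 2 ^ (k - l + 1) * 2 ^ l := Nat.mul_le_mul_right _ (by omega)
      _ = 2 ^ (k + 1) := by rw [← pow_add]; congr 1; omega
  have hXY : (j + 1) * 2 ^ l = j * 2 ^ l + 2 ^ l := by ring
  have h2k : 1 ≤ 2 ^ k := Nat.one_le_two_pow
  set X := j * 2 ^ l with hXd
  have hX1 : 1 ≤ X := by omega
  have hY1 : 1 ≤ (j + 1) * 2 ^ l := Nat.mul_pos (by omega) (by positivity)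
  rw [EE_block h0 hz hσ hσ1 (by positivity) (by linarith) hY1 h1 h2, Complex.norm_real,
    Real.norm_eq_abs]
  have hmass := W_mass hX1 hY1 hτ0 hτ1 rfl rfl h1 h2
  rw [hXY] at hmass hY ⊢
  have hΛ := Lambda_block hX hY
  have hη0 : 0 < τ / 50 := by positivity
  have hle : ∑ m ∈ Finset.Ico X (X + 2 ^ l), aL m * WR (τ / 50) (4 / 5 * τ) (x - Real.log m) ≤
      ∑ m ∈ Finset.Ico X (X + 2 ^ l), ArithmeticFunction.vonMangoldt m -
      ∑ m ∈ Finset.Ico X (X + 2 ^ l), WR (τ / 50) (4 / 5 * τ) (x - Real.log m) := by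
    rw [← Finset.sum_sub_distrib]
    refine Finset.sum_le_sum fun m hm => ?_
    rw [Finset.mem_Ico] at hm
    have g1 := WR_nonneg hη0 (4 / 5 * τ) (x - Real.log m)
    have g2 := WR_le hη0 (4 / 5 * τ) (x - Real.log m)
    have g3 := ArithmeticFunction.vonMangoldt_nonneg (n := m)
    unfold aL
    rw [if_neg (by omega)]
    nlinarith
  -- the number of primes
  have hkR : (100 : ℝ) ≤ k := by exact_mod_cast hk
  have hπ : (((Finset.Ico X (X + 2 ^ l)).filter Nat.Prime).card : ℝ) * (8 * k) ≤ 2 ^ l := by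
    unfold Bad blk at hbad
    rw [hXY] at hbad
    have h3 : ((8 * k * ((Finset.Ico X (X + 2 ^ l)).filter Nat.Prime).card : ℕ) : ℝ) ≤
      ((2 ^ l : ℕ) : ℝ) := by exact_mod_cast hbad.le
    push_cast at h3
    linarith
  set π₀ : ℝ := (((Finset.Ico X (X + 2 ^ l)).filter Nat.Prime).card : ℝ) with hπ0
  have hπ00 : 0 ≤ π₀ := Nat.cast_nonneg _
  have hl2 : Real.log 2 < 7 / 10 := by
    have := Real.log_two_lt_d9
    linarith
  have hl20 : 0 < Real.log 2 := Real.log_pos (by norm_num)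
  have hmain : (k + 1) * Real.log 2 * π₀ ≤ 9 / 100 * 2 ^ l := by
    have h3 : (k + 1) * Real.log 2 ≤ 9 / 100 * (8 * k) := by nlinarith
    calc (k + 1) * Real.log 2 * π₀ ≤ 9 / 100 * (8 * k) * π₀ := by gcongr
      _ = 9 / 100 * (π₀ * (8 * k)) := by ring
      _ ≤ 9 / 100 * 2 ^ l := by gcongr
  set D : ℝ := (2 : ℝ) ^ l / Real.sqrt (2 ^ k) + 1 with hD
  have hD0 : 0 < D := by positivity
  have hrest : (k + 1) * Real.log 2 * (k * D) ≤ (k + 1) * (k + 1) * D := by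
    have h3 : Real.log 2 * (k * D) ≤ 1 * ((k + 1) * D) := by
      gcongr
      · linarith
      · linarith
    calc (k + 1) * Real.log 2 * (k * D) = (k + 1) * (Real.log 2 * (k * D)) := by ring
      _ ≤ (k + 1) * (1 * ((k + 1) * D)) := by gcongr
      _ = _ := by ring
  have hmass2 : 27 / 100 * (2 : ℝ) ^ l - 1 ≤ 27 / 50 * τ * X - 1 := by
    have h3 : (2 : ℝ) ^ l = 2 * (τ * 2 ^ k) := by
      rw [hτ, pow_succ]
      field_simp
    have h4 : (2 : ℝ) ^ k ≤ X := by exact_mod_cast hX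
    have h5 : τ * 2 ^ k ≤ τ * X := by gcongr
    rw [h3]
    linarith
  have hΛ2 : ∑ m ∈ Finset.Ico X (X + 2 ^ l), ArithmeticFunction.vonMangoldt m ≤
      9 / 100 * 2 ^ l + (k + 1) * (k + 1) * D := by
    refine hΛ.trans ?_
    push_cast
    calc _ = (k + 1) * Real.log 2 * π₀ + (k + 1) * Real.log 2 * (k * D) := by
          rw [hD, hπ0]; ring
      _ ≤ _ := add_le_add hmain hrest
  have hfin : ∑ m ∈ Finset.Ico X (X + 2 ^ l), aL m * WR (τ / 50) (4 / 5 * τ) (x - Real.log m) ≤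
      -(1 / 10 * 2 ^ l) := by
    have : (0 : ℝ) < 2 ^ l := by positivity
    linarith
  rw [abs_of_nonpos (by have : (0 : ℝ) < 2 ^ l := by positivity
                        linarith)]
  linarith

end

end Pool.Agent.W327.MO.Q
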