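import Pool.Agent.W164.MO.Defs

/-! # MO-SY1: sparsity -/

set_option autoImplicit false

open Finset

namespace Pool.Agent.W327.MO

open Pool.Agent.W164.MO

theorem two_rpow_mul_nat (a : ℝ) (i : ℕ) : (2 : ℝ) ^ (a * (i : ℝ)) = ((2 : ℝ) ^ a) ^ i := by
  rw [Real.rpow_mul (by norm_num), Real.rpow_natCast]

theorem lin_le_exp (a A B : ℝ) (ha : 0 < a) :
    ∃ I : ℕ, ∀ i : ℕ, I ≤ i → A * i + B ≤ (2 : ℝ) ^ (a * (i : ℝ)) := by
  have hr : 1 < (2 : ℝ) ^ a := Real.one_lt_rpow (by norm_num) ha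
  have h1 := tendsto_pow_const_div_const_pow_of_one_lt 1 hr
  have h0 := tendsto_pow_const_div_const_pow_of_one_lt 0 hr
  have h2 := (h1.const_mul A).add (h0.const_mul B)
  rw [mul_zero, mul_zero, add_zero] at h2
  have h3 := h2.eventually (gt_mem_nhds (zero_lt_one' ℝ))
  obtain ⟨I, hI⟩ := Filter.eventually_atTop.1 h3
  refine ⟨I, fun i hi => ?_⟩
  have h4 := hI i hi
  rw [two_rpow_mul_nat]
  have hpos : 0 < ((2 : ℝ) ^ a) ^ i := by positivity
  simp only [pow_one, pow_zero] at h4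
  have h5 : A * ((i : ℝ) / ((2 : ℝ) ^ a) ^ i) + B * (1 / ((2 : ℝ) ^ a) ^ i) =
      (A * i + B) / ((2 : ℝ) ^ a) ^ i := by
    field_simp
  rw [h5, div_lt_one hpos] at h4
  exact h4.le

theorem fibre_card (s : Finset ℕ) (l j : ℕ) : (s.filter (fun n => n / 2 ^ l = j)).card ≤ 2 ^ l := by
  have h1 : s.filter (fun n => n / 2 ^ l = j) ⊆ Ico (j * 2 ^ l) (j * 2 ^ l + 2 ^ l) := by
    intro n hn
    rw [mem_filter] at hn
    have h2 := Nat.div_add_mod n (2 ^ l)
    have h3 := Nat.mod_lt n (show 0 < 2 ^ l by positivity)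
    rw [hn.2, mul_comm] at h2
    rw [mem_Ico]
    omega
  refine (card_le_card h1).trans ?_
  rw [Nat.card_Ico, Nat.add_sub_cancel_left]

theorem mem_idx {k l n : ℕ} (hl : l ≤ k) (h1 : 2 ^ k ≤ n) (h2 : n < 2 ^ (k + 1)) :
    n / 2 ^ l ∈ idx k l := by
  unfold idx
  rw [mem_Ico]
  have h3 : 2 ^ (k - l) * 2 ^ l = 2 ^ k := by
    rw [← pow_add]
    congr 1
    omega
  have h4 : 2 ^ (k - l + 1) * 2 ^ l = 2 ^ (k + 1) := by
    rw [← pow_add]
    congr 1
    omega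
  constructor
  · rw [Nat.le_div_iff_mul_le (by positivity), h3]
    exact h1
  · apply Nat.div_lt_of_lt_mul
    rw [mul_comm, h4]
    exact h2

theorem ll_of_le {ν : ℝ} {k₁ k : ℕ} (h : k₁ ≤ k) :
    ll ν k₁ k = ⌊(1 / 2 - ν / 1000) * (k : ℝ)⌋₊ := by
  unfold ll
  rw [if_neg (by omega)]

/-- the number of elements of the bad blocks -/
theorem bad_card {ν : ℝ} (hν : 0 < ν) (hν1 : ν ≤ 1) {K : ℕ}
    (hBB : ∀ k l : ℕ, K ≤ k → l ≤ k →
      (((idx k l).filter (fun j => Bad k l j)).card : ℝ) ≤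
        (2 : ℝ) ^ ((1 + ν / 1000) * k - 2 * l)) {k₁ k : ℕ} (hk : K ≤ k) (hk1 : k₁ ≤ k) :
    (((Ico (2 ^ k) (2 ^ (k + 1))).filter
      (fun n => Bad k (ll ν k₁ k) (n / 2 ^ ll ν k₁ k))).card : ℝ) ≤
      (2 : ℝ) ^ ((1 / 2 + 2 * (ν / 1000)) * (k : ℝ) + 1) := by
  classical
  set l := ll ν k₁ k with hl
  have hk0 : (0 : ℝ) ≤ k := Nat.cast_nonneg k
  have hnn : 0 ≤ (1 / 2 - ν / 1000) * (k : ℝ) := mul_nonneg (by linarith) hk0
  have hlR : (l : ℝ) ≤ (1 / 2 - ν / 1000) * (k : ℝ) := by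
    rw [hl, ll_of_le hk1]
    exact Nat.floor_le hnn
  have hlR2 : (1 / 2 - ν / 1000) * (k : ℝ) - 1 ≤ (l : ℝ) := by
    rw [hl, ll_of_le hk1]
    have := Nat.lt_floor_add_one ((1 / 2 - ν / 1000) * (k : ℝ))
    linarith
  have hlk : l ≤ k := by
    have : (l : ℝ) ≤ k := by nlinarith
    exact_mod_cast this
  set s := (Ico (2 ^ k) (2 ^ (k + 1))).filter (fun n => Bad k l (n / 2 ^ l)) with hs
  have h1 : s.card ≤ 2 ^ l * (s.image (fun n => n / 2 ^ l)).card :=
    card_le_mul_card_image s _ fun b _ => fibre_card s l b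
  have h2 : s.image (fun n => n / 2 ^ l) ⊆ (idx k l).filter (fun j => Bad k l j) := by
    intro j hj
    obtain ⟨n, hn, rfl⟩ := mem_image.1 hj
    rw [hs, mem_filter, mem_Ico] at hn
    rw [mem_filter]
    exact ⟨mem_idx hlk hn.1.1 hn.1.2, hn.2⟩
  have h3 : (s.card : ℝ) ≤ (2 : ℝ) ^ l * (2 : ℝ) ^ ((1 + ν / 1000) * k - 2 * l) := by
    calc (s.card : ℝ) ≤ ((2 ^ l * (s.image (fun n => n / 2 ^ l)).card : ℕ) : ℝ) := by
          exact_mod_cast h1
      _ = (2 : ℝ) ^ l * ((s.image (fun n => n / 2 ^ l)).card : ℝ) := by push_cast; ring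
      _ ≤ (2 : ℝ) ^ l * (((idx k l).filter (fun j => Bad k l j)).card : ℝ) := by
          gcongr
      _ ≤ _ := by
          gcongr
          exact hBB k l hk hlk
  refine h3.trans ?_
  rw [← Real.rpow_natCast, ← Real.rpow_add (by norm_num)]
  apply Real.rpow_le_rpow_of_exponent_le (by norm_num)
  linarith

theorem sy1 : S_SY1 := by
  classical
  intro hRH hBB c ν hc hc1 hν hνc
  obtain ⟨K0, hK0⟩ := hBB hRH (ν / 1000) (by positivity)
  obtain ⟨I0, hI0⟩ := lin_le_exp (13 / 20 * c) 32 48 (by positivity)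
  have hν1 : ν ≤ 1 := by linarith
  refine ⟨K0 + 2 * I0 + ⌈1 / c⌉₊ + 10, fun k₁ i hk₁ => ⟨?_, ?_⟩⟩
  · -- the large primes
    set s := (Ico (2 ^ i) (2 ^ (i + 1))).filter (fun p => ∃ N, Src c ν k₁ N p) with hs
    by_cases hne : s.Nonempty
    swap
    · rw [not_nonempty_iff_eq_empty] at hne
      rw [hne, card_empty]
      push_cast
      positivity
    have hch : ∀ p : ℕ, ∃ N : ℕ, p ∈ s → Src c ν k₁ N p := by
      intro p
      by_cases hp : p ∈ s
      · obtain ⟨N, hN⟩ := (mem_filter.1 hp).2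
        exact ⟨N, fun _ => hN⟩
      · exact ⟨0, fun h => absurd h hp⟩
    choose g hg using hch
    set H : ℕ := ⌊2 * ((i : ℝ) + 1) / (1 + c)⌋₊ with hH
    have hH0 : 0 ≤ 2 * ((i : ℝ) + 1) / (1 + c) := by positivity
    have hlogH : ∀ p ∈ s, Nat.log 2 (g p) ≤ H := by
      intro p hp
      obtain ⟨_, _, _, _, _, h6, _⟩ := hg p hp
      have hp2 := (mem_Ico.1 (mem_filter.1 hp).1).2
      have h7 : (2 : ℝ) ^ ((1 / 2 + c / 2) * (Nat.log 2 (g p) : ℝ)) < (2 : ℝ) ^ ((i : ℝ) + 1) := by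
        refine h6.trans ?_
        have : ((p : ℕ) : ℝ) < ((2 ^ (i + 1) : ℕ) : ℝ) := by exact_mod_cast hp2
        refine this.trans_eq ?_
        push_cast
        rw [← Real.rpow_natCast]
        push_cast
        ring_nf
      have h8 := (Real.rpow_lt_rpow_left_iff (by norm_num : (1 : ℝ) < 2)).1 h7
      apply Nat.le_floor
      rw [le_div_iff₀ (by linarith)]
      nlinarith
    -- `i` is large
    obtain ⟨p₀, hp₀⟩ := hne
    have hi1 : (k₁ : ℝ) / 2 < (i : ℝ) + 1 := by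
      obtain ⟨_, h2, _, _, _, h6, _⟩ := hg p₀ hp₀
      have h9 := hlogH p₀ hp₀
      have h10 : (Nat.log 2 (g p₀) : ℝ) ≤ 2 * ((i : ℝ) + 1) / (1 + c) :=
        (Nat.cast_le.2 h9).trans (Nat.floor_le hH0)
      rw [le_div_iff₀ (by linarith)] at h10
      have h11 : (k₁ : ℝ) ≤ Nat.log 2 (g p₀) := by exact_mod_cast h2
      have h12 : (0 : ℝ) < k₁ := by exact_mod_cast (by omega : 0 < k₁)
      nlinarith
    have hiI : I0 ≤ i := by
      have h1 : ((K0 + 2 * I0 + ⌈1 / c⌉₊ + 10 : ℕ) : ℝ) ≤ k₁ := by exact_mod_cast hk₁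
      push_cast at h1
      have h2 : (0 : ℝ) ≤ K0 := Nat.cast_nonneg _
      have h3 : (0 : ℝ) ≤ (⌈1 / c⌉₊ : ℝ) := Nat.cast_nonneg _
      have : (I0 : ℝ) ≤ i := by linarith
      exact_mod_cast this
    -- the map to the bad numbers
    set U : ℕ → Finset ℕ := fun h => if k₁ ≤ h then (Ico (2 ^ h) (2 ^ (h + 1))).filter
      (fun n => Bad h (ll ν k₁ h) (n / 2 ^ ll ν k₁ h)) else ∅ with hU
    have hmaps : ∀ p ∈ s, g p ∈ (range (H + 1)).biUnion U := by
      intro p hp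
      obtain ⟨h1, h2, h3, _⟩ := hg p hp
      rw [mem_biUnion]
      refine ⟨Nat.log 2 (g p), mem_range.2 (Nat.lt_succ_of_le (hlogH p hp)), ?_⟩
      rw [hU]
      simp only [if_pos h2]
      rw [mem_filter, mem_Ico]
      exact ⟨⟨Nat.pow_log_le_self 2 h1, Nat.lt_pow_succ_log_self (by norm_num) _⟩, h3⟩
    have hinj : Set.InjOn g (s : Set ℕ) := by
      intro p hp p' hp' heq
      obtain ⟨h1, h2, _, h4, h5, h6, _⟩ := hg p hp
      obtain ⟨h1', h2', _, h4', h5', h6', _⟩ := hg p' hp'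
      by_contra hne
      rw [← heq] at h5' h6'
      have hcop : Nat.Coprime p p' := (Nat.coprime_primes h4 h4').2 hne
      have hdvd : p * p' ∣ g p := hcop.mul_dvd_of_dvd_of_dvd h5 h5'
      have hle := Nat.le_of_dvd (Nat.pos_of_ne_zero h1) hdvd
      have hlt := Nat.lt_pow_succ_log_self (b := 2) (by norm_num) (g p)
      set h := Nat.log 2 (g p) with hh
      have h7 : (p : ℝ) * p' < (2 : ℝ) ^ ((h : ℝ) + 1) := by
        have h8 : ((p * p' : ℕ) : ℝ) < ((2 ^ (h + 1) : ℕ) : ℝ) := by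
          exact_mod_cast hle.trans_lt hlt
        push_cast at h8
        refine h8.trans_eq ?_
        rw [← Real.rpow_natCast]
        push_cast
        ring_nf
      have h9 : (2 : ℝ) ^ ((1 / 2 + c / 2) * (h : ℝ)) * (2 : ℝ) ^ ((1 / 2 + c / 2) * (h : ℝ)) <
          (p : ℝ) * p' := mul_lt_mul'' h6 h6' (by positivity) (by positivity)
      rw [← Real.rpow_add (by norm_num)] at h9
      have h10 := (Real.rpow_lt_rpow_left_iff (by norm_num : (1 : ℝ) < 2)).1 (h9.trans h7)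
      have h11 : 1 / c ≤ (h : ℝ) := by
        have h12 : ⌈1 / c⌉₊ ≤ h := by omega
        exact (Nat.le_ceil _).trans (by exact_mod_cast h12)
      rw [div_le_iff₀ hc] at h11
      nlinarith
    have hcard1 : s.card ≤ ∑ h ∈ range (H + 1), (U h).card :=
      (card_le_card_of_injOn g hmaps hinj).trans card_biUnion_le
    have hUb : ∀ h ∈ range (H + 1), ((U h).card : ℝ) ≤
        (2 : ℝ) ^ ((1 / 2 + 2 * (ν / 1000)) * (H : ℝ) + 1) := by
      intro h hh
      rw [mem_range] at hh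
      by_cases hk : k₁ ≤ h
      · have h1 : U h = (Ico (2 ^ h) (2 ^ (h + 1))).filter
            (fun n => Bad h (ll ν k₁ h) (n / 2 ^ ll ν k₁ h)) := by
          rw [hU]
          simp only [if_pos hk]
        rw [h1]
        refine (bad_card hν hν1 hK0 (by omega) hk).trans ?_
        apply Real.rpow_le_rpow_of_exponent_le (by norm_num)
        have h2 : (h : ℝ) ≤ H := by exact_mod_cast (by omega : h ≤ H)
        have h3 : 0 ≤ 1 / 2 + 2 * (ν / 1000) := by positivity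
        nlinarith
      · have h1 : U h = ∅ := by
          rw [hU]
          simp only [if_neg hk]
        rw [h1, card_empty]
        push_cast
        positivity
    have hcard2 : (s.card : ℝ) ≤ ((H : ℝ) + 1) *
        (2 : ℝ) ^ ((1 / 2 + 2 * (ν / 1000)) * (H : ℝ) + 1) := by
      calc (s.card : ℝ) ≤ ((∑ h ∈ range (H + 1), (U h).card : ℕ) : ℝ) := by exact_mod_cast hcard1
        _ = ∑ h ∈ range (H + 1), ((U h).card : ℝ) := by push_cast; rfl
        _ ≤ ∑ h ∈ range (H + 1), (2 : ℝ) ^ ((1 / 2 + 2 * (ν / 1000)) * (H : ℝ) + 1) :=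
            sum_le_sum hUb
        _ = _ := by rw [sum_const, card_range, nsmul_eq_mul]; push_cast; ring
    refine hcard2.trans ?_
    have hHR : (H : ℝ) * (1 + c) ≤ 2 * ((i : ℝ) + 1) := by
      have := Nat.floor_le hH0
      rw [← hH, le_div_iff₀ (by linarith)] at this
      exact this
    have hH1 : (H : ℝ) + 1 ≤ 2 * i + 3 := by
      have : (0 : ℝ) ≤ H := Nat.cast_nonneg _
      nlinarith
    have hexp : (1 / 2 + 2 * (ν / 1000)) * (H : ℝ) + 1 ≤ (1 - 9 / 10 * c) * ((i : ℝ) + 1) + 1 := by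
      have h1 : (1 / 2 + 2 * (ν / 1000)) ≤ (1 - 9 / 10 * c) * (1 + c) / 2 := by
        nlinarith
      have h2 : (0 : ℝ) ≤ H := Nat.cast_nonneg _
      have h3 : 0 ≤ (1 - 9 / 10 * c) := by linarith
      calc (1 / 2 + 2 * (ν / 1000)) * (H : ℝ) + 1
          ≤ ((1 - 9 / 10 * c) * (1 + c) / 2) * H + 1 := by gcongr
        _ = (1 - 9 / 10 * c) / 2 * (H * (1 + c)) + 1 := by ring
        _ ≤ (1 - 9 / 10 * c) / 2 * (2 * ((i : ℝ) + 1)) + 1 := by gcongr
        _ = _ := by ring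
    have h2i := hI0 i hiI
    have hfin : ((H : ℝ) + 1) * 4 ≤ (2 : ℝ) ^ (13 / 20 * c * (i : ℝ)) := by
      have : (0 : ℝ) ≤ i := Nat.cast_nonneg _
      linarith
    calc ((H : ℝ) + 1) * (2 : ℝ) ^ ((1 / 2 + 2 * (ν / 1000)) * (H : ℝ) + 1)
        ≤ ((H : ℝ) + 1) * (2 : ℝ) ^ ((1 - 9 / 10 * c) * ((i : ℝ) + 1) + 1) := by
          gcongr
          norm_num
      _ ≤ ((H : ℝ) + 1) * (4 * (2 : ℝ) ^ ((1 - 9 / 10 * c) * (i : ℝ))) := by
          gcongr
          rw [show (4 : ℝ) = (2 : ℝ) ^ (2 : ℝ) by norm_num, ← Real.rpow_add (by norm_num)]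
          apply Real.rpow_le_rpow_of_exponent_le (by norm_num)
          nlinarith
      _ = (((H : ℝ) + 1) * 4) * (2 : ℝ) ^ ((1 - 9 / 10 * c) * (i : ℝ)) := by ring
      _ ≤ (2 : ℝ) ^ (13 / 20 * c * (i : ℝ)) * (2 : ℝ) ^ ((1 - 9 / 10 * c) * (i : ℝ)) := by
          gcongr
      _ = _ := by
          rw [← Real.rpow_add (by norm_num)]
          congr 1
          ring
  · -- the primes in bad blocks
    by_cases hki : k₁ ≤ i
    · have h1 : (Ico (2 ^ i) (2 ^ (i + 1))).filter (fun p => k₁ ≤ i ∧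
          Bad i (ll ν k₁ i) (p / 2 ^ ll ν k₁ i)) = (Ico (2 ^ i) (2 ^ (i + 1))).filter
          (fun p => Bad i (ll ν k₁ i) (p / 2 ^ ll ν k₁ i)) := by
        ext p
        simp [hki]
      rw [h1]
      refine (bad_card hν hν1 hK0 (by omega) hki).trans ?_
      apply Real.rpow_le_rpow_of_exponent_le (by norm_num)
      have h2 : (10 : ℝ) ≤ i := by exact_mod_cast (by omega : 10 ≤ i)
      nlinarith
    · have h1 : (Ico (2 ^ i) (2 ^ (i + 1))).filter (fun p => k₁ ≤ i ∧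
          Bad i (ll ν k₁ i) (p / 2 ^ ll ν k₁ i)) = ∅ := by
        ext p
        simp [hki]
      rw [h1, card_empty]
      push_cast
      positivity

end Pool.Agent.W327.MO
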